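import Pool.Agent.P.MP_dba4bb_co.Defs

/-! Planar lemmas: gluing of non-expanding maps and the area of two discs. -/

namespace Pool.Agent.P.MP_dba4bb_co

open Set Metric MeasureTheory Filter Topology

theorem dist_le_of_local {X : Type*} [PseudoMetricSpace X] (h : ℝ → X) {L : ℝ}
    (H : ∀ t ∈ Icc (0 : ℝ) 1, ∀ᶠ t' in 𝓝[Icc 0 1] t, dist (h t') (h t) ≤ L * |t' - t|) :
    dist (h 1) (h 0) ≤ L := by
  have hc : ContinuousOn h (Icc 0 1) := by
    intro t ht
    rw [ContinuousWithinAt, tendsto_iff_dist_tendsto_zero]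
    have h1 : Tendsto (fun t' => L * |t' - t|) (𝓝[Icc 0 1] t) (𝓝 0) := by
      have : Continuous fun t' : ℝ => L * |t' - t| := by fun_prop
      have := (this.tendsto t).mono_left (nhdsWithin_le_nhds (s := Icc 0 1))
      simpa using this
    exact squeeze_zero' (Eventually.of_forall fun _ => dist_nonneg) (H t ht) h1
  have key : (1 : ℝ) ∈ {t | dist (h t) (h 0) ≤ L * t} := by
    refine IsClosed.mem_of_ge_of_forall_exists_gt ?_ (by simp) zero_le_one ?_
    · rw [inter_comm]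
      have h1 : ContinuousOn (fun t => dist (h t) (h 0)) (Icc 0 1) :=
        (continuous_id.dist continuous_const).comp_continuousOn hc
      have h2 : ContinuousOn (fun t : ℝ => L * t) (Icc 0 1) := by fun_prop
      exact isClosed_Icc.isClosed_le h1 h2
    · rintro t ⟨ht, h0, h1⟩
      have hsub : Ioc t 1 ⊆ Icc 0 1 := fun u hu => ⟨h0.trans hu.1.le, hu.2⟩
      have h2 := (H t ⟨h0, h1.le⟩).filter_mono (nhdsWithin_mono t hsub)
      have : (𝓝[Ioc t 1] t).NeBot := by
        rw [nhdsWithin_Ioc_eq_nhdsGT h1]; infer_instance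
      obtain ⟨u, hu, hu'⟩ := (h2.and self_mem_nhdsWithin).exists
      refine ⟨u, ?_, hu'⟩
      rw [abs_of_pos (sub_pos.2 hu'.1)] at hu
      have := dist_triangle (h u) (h t) (h 0)
      simp only [mem_ofPred_eq] at ht ⊢
      linarith
  simpa using key

theorem glue {X : Type*} [PseudoMetricSpace X] {g : ℂ → X} {K : Set ℂ} (hK : Convex ℝ K)
    {𝓕 : Set (Set ℂ)} (fin : 𝓕.Finite) (hc : ∀ F ∈ 𝓕, IsClosed F) (hcov : K ⊆ ⋃₀ 𝓕)
    (hl : ∀ F ∈ 𝓕, ∀ p ∈ F ∩ K, ∀ q ∈ F ∩ K, dist (g p) (g q) ≤ dist p q)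
    {p q : ℂ} (hp : p ∈ K) (hq : q ∈ K) : dist (g p) (g q) ≤ dist p q := by
  set γ : ℝ → ℂ := fun t => q + (t : ℂ) * (p - q) with hγ
  have hγc : Continuous γ := by fun_prop
  have hγK : ∀ t ∈ Icc (0 : ℝ) 1, γ t ∈ K := fun t ht => by
    have := hK.add_smul_sub_mem hq hp ht
    simpa [hγ] using this
  have := dist_le_of_local (fun t => g (γ t)) (L := dist p q) fun t ht => by
    have h1 : ∀ᶠ t' in 𝓝 t, ∀ F ∈ 𝓕, γ t' ∈ F → γ t ∈ F := by
      rw [eventually_all_finite fin]
      intro F hF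
      by_cases h : γ t ∈ F
      · exact Eventually.of_forall fun _ _ => h
      · have : ∀ᶠ t' in 𝓝 t, γ t' ∈ Fᶜ :=
          hγc.continuousAt.eventually ((hc F hF).isOpen_compl.mem_nhds h)
        exact this.mono fun _ h' h'' => absurd h'' h'
    filter_upwards [nhdsWithin_le_nhds h1, self_mem_nhdsWithin] with u hu hu'
    obtain ⟨F, hF, hm⟩ := hcov (hγK u hu')
    refine (hl F hF _ ⟨hm, hγK u hu'⟩ _ ⟨hu F hF hm, hγK t ht⟩).trans_eq ?_
    rw [dist_eq_norm, dist_eq_norm, hγ]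
    have : q + (u : ℂ) * (p - q) - (q + (t : ℂ) * (p - q)) = ((u - t : ℝ) : ℂ) * (p - q) := by
      push_cast; ring
    simp only [this, norm_mul, Complex.norm_real, Real.norm_eq_abs, mul_comm]
  simpa [hγ] using this

/-- the disc of radius `3/8` -/
abbrev Dk (a : ℂ) : Set ℂ := closedBall a (3 / 8)

theorem mem_Dk {a z : ℂ} : z ∈ Dk a ↔ (z.re - a.re) ^ 2 + (z.im - a.im) ^ 2 ≤ 9 / 64 := by
  rw [mem_closedBall, dist_eq_norm, ← abs_of_nonneg (norm_nonneg (z - a)),
    ← abs_of_nonneg (by norm_num : (0 : ℝ) ≤ 3 / 8), ← sq_le_sq, Complex.sq_norm,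
    Complex.normSq_apply]
  simp only [Complex.sub_re, Complex.sub_im]
  constructor <;> intro h <;> nlinarith

theorem lens0 {t' t T : ℝ} (h0 : 0 ≤ t') (h1 : t' ≤ t) (h2 : t ≤ T) (h3 : t ≤ 3 / 5) :
    volume.real (Dk 0 ∩ Dk (T * Complex.I)) + 2 / 5 * (t - t') ≤
      volume.real (Dk 0 ∩ Dk (t' * Complex.I)) := by
  set w : ℝ → ℝ := fun x => √(9 / 64 - x ^ 2) with hw
  set Z : Set ℂ := Complex.measurableEquivRealProd ⁻¹'
    regionBetween (fun x => t' - w x) (fun x => t - w x) (Icc (-1 / 5) (1 / 5)) with hZ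
  have hwm : Measurable w := by fun_prop
  have hZm : MeasurableSet Z := Complex.measurableEquivRealProd.measurable
    (measurableSet_regionBetween (by fun_prop) (by fun_prop) measurableSet_Icc)
  have hZv : volume.real Z = 2 / 5 * (t - t') := by
    rw [measureReal_def, hZ, Complex.volume_preserving_equiv_real_prod.measure_preimage_equiv,
      Measure.volume_eq_prod, volume_regionBetween_eq_lintegral' (by fun_prop) (by fun_prop)
      measurableSet_Icc]
    simp only [Pi.sub_apply, sub_sub_sub_cancel_right, lintegral_const, MeasurableSet.univ,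
      Measure.restrict_apply, univ_inter, Real.volume_Icc]
    rw [← ENNReal.ofReal_mul (by linarith), ENNReal.toReal_ofReal (by nlinarith)]
    ring
  have hZ' : ∀ z ∈ Z, z.re ^ 2 ≤ 1 / 25 ∧ t' - w z.re < z.im ∧ z.im < t - w z.re := by
    intro z hz
    obtain ⟨⟨a, b⟩, c, d⟩ := hz
    simp only [Complex.measurableEquivRealProd_apply] at a b c d
    exact ⟨by nlinarith, c, d⟩
  have hw' : ∀ x : ℝ, x ^ 2 ≤ 1 / 25 → w x ^ 2 = 9 / 64 - x ^ 2 ∧ 3 / 10 ≤ w x := fun x hx =>
    ⟨Real.sq_sqrt (by linarith), Real.le_sqrt_of_sq_le (by linarith)⟩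
  have hdis : Disjoint (Dk 0 ∩ Dk (T * Complex.I)) Z := by
    rw [Set.disjoint_left]
    rintro z ⟨-, hz⟩ hz'
    obtain ⟨a, b, c⟩ := hZ' z hz'
    obtain ⟨d, e⟩ := hw' _ a
    rw [mem_Dk] at hz
    simp at hz
    nlinarith
  rw [← hZv, ← measureReal_union hdis hZm (measure_ne_top_of_subset inter_subset_left
    measure_closedBall_lt_top.ne) ?_]
  · refine measureReal_mono ?_ (measure_ne_top_of_subset inter_subset_left
      measure_closedBall_lt_top.ne)
    rintro z (⟨hz, hz'⟩ | hz)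
    · refine ⟨hz, ?_⟩
      rw [mem_Dk] at hz hz' ⊢
      simp at hz hz' ⊢
      by_cases h : z.im ≤ t' / 2
      · nlinarith
      · nlinarith
    · obtain ⟨a, b, c⟩ := hZ' z hz
      obtain ⟨d, e⟩ := hw' _ a
      constructor <;> rw [mem_Dk] <;> simp <;> nlinarith
  · refine measure_ne_top_of_subset (s := Dk 0) (fun z hz => ?_) measure_closedBall_lt_top.ne
    obtain ⟨a, b, c⟩ := hZ' z hz
    obtain ⟨d, e⟩ := hw' _ a
    rw [mem_Dk]; simp; nlinarith

theorem lens1 (a b : ℂ) :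
    volume.real (Dk a ∩ Dk b) = volume.real (Dk 0 ∩ Dk ((dist a b : ℝ) * Complex.I)) := by
  obtain ⟨u, hu, hu'⟩ : ∃ u : ℂ, ‖u‖ = 1 ∧ b - a = u * ((dist a b : ℝ) * Complex.I) := by
    refine ⟨Complex.exp ((b - a).arg * Complex.I) * -Complex.I, by simp, ?_⟩
    rw [dist_comm, dist_eq_norm]
    have := Complex.norm_mul_exp_arg_mul_I (b - a)
    linear_combination (-1 : ℂ) * this + (‖b - a‖ : ℂ) * Complex.exp ((b - a).arg * Complex.I) *
      Complex.I_mul_I
  have hiso : Isometry fun z : ℂ => a + u * z := Isometry.of_dist_eq fun x y => by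
    rw [dist_add_left, dist_eq_norm, dist_eq_norm, ← mul_sub, norm_mul, hu, one_mul]
  have hu0 : u ≠ 0 := by rintro rfl; simp at hu
  have himg : (fun z : ℂ => a + u * z) '' (Dk 0 ∩ Dk ((dist a b : ℝ) * Complex.I)) =
      Dk a ∩ Dk b := by
    have e1 : ∀ z, a + u * z ∈ Dk a ↔ z ∈ Dk 0 := fun z => by
      have := hiso.dist_eq z 0
      simp only [mul_zero, add_zero] at this
      rw [mem_closedBall, mem_closedBall, this]
    have e2 : ∀ z, a + u * z ∈ Dk b ↔ z ∈ Dk ((dist a b : ℝ) * Complex.I) := fun z => by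
      have := hiso.dist_eq z ((dist a b : ℝ) * Complex.I)
      simp only [← hu', add_sub_cancel] at this
      rw [mem_closedBall, mem_closedBall, this]
    ext z
    constructor
    · rintro ⟨y, ⟨h1, h2⟩, rfl⟩
      exact ⟨(e1 y).2 h1, (e2 y).2 h2⟩
    · rintro ⟨h1, h2⟩
      have : a + u * ((z - a) / u) = z := by field_simp; ring
      exact ⟨(z - a) / u, ⟨(e1 _).1 (this.symm ▸ h1), (e2 _).1 (this.symm ▸ h2)⟩, this⟩
  have hv : (volume : Measure ℂ) = μHE[2] := by
    rw [← InnerProductSpace.euclideanHausdorffMeasure_eq_volume, Complex.finrank_real_complex]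
  rw [← himg, measureReal_def, measureReal_def, hv, hiso.euclideanHausdorffMeasure_image]

theorem lens {a b a' b' : ℂ} {t : ℝ} (h1 : dist a' b' ≤ t) (h2 : t ≤ dist a b) (h3 : t ≤ 3 / 5) :
    volume.real (Dk a' ∪ Dk b') + 2 / 5 * (t - dist a' b') ≤ volume.real (Dk a ∪ Dk b) := by
  have e : ∀ c d : ℂ, volume.real (Dk c ∪ Dk d) + volume.real (Dk c ∩ Dk d) =
      2 * volume.real (Dk 0) := fun c d => by
    rw [measureReal_union_add_inter measurableSet_closedBall measure_closedBall_lt_top.ne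
      measure_closedBall_lt_top.ne]
    simp only [measureReal_def, Complex.volume_closedBall]; ring
  have := lens0 dist_nonneg h1 h2 h3
  rw [← lens1, ← lens1] at this
  linarith [e a b, e a' b']

end Pool.Agent.P.MP_dba4bb_co
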