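import Mathlib

/-! Rigidity of a braced ladder in the plane. -/

namespace Pool.Agent.P.MP_dba4bb_co

open Complex Finset

theorem nsq (z : ℂ) : ‖z‖ ^ 2 = z.re ^ 2 + z.im ^ 2 := by
  rw [Complex.sq_norm, Complex.normSq_apply]; ring

theorem truss_real {a b c d x y α : ℝ} (h0 : 0 ≤ α) (hα : α ≤ 1 / 100)
    (n1 : a ^ 2 + b ^ 2 ≤ 1 / 16) (n2 : 1 / 16 - α ≤ a ^ 2 + b ^ 2)
    (e1 : c ^ 2 + d ^ 2 ≤ 1 / 16) (e2 : 1 / 16 - α ≤ c ^ 2 + d ^ 2)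
    (n3 : (a + x) ^ 2 + (b + y) ^ 2 ≤ 1 / 16) (n4 : 1 / 16 - α ≤ (a + x) ^ 2 + (b + y) ^ 2)
    (e3 : (c + x) ^ 2 + (d + y) ^ 2 ≤ 1 / 16) (e4 : 1 / 16 - α ≤ (c + x) ^ 2 + (d + y) ^ 2)
    (d1 : 1 / 8 - α ≤ (a - c) ^ 2 + (b - d) ^ 2)
    (d2 : 1 / 8 - α ≤ (a + c + x) ^ 2 + (b + d + y) ^ 2) :
    x ^ 2 + y ^ 2 ≤ (17 * α) ^ 2 ∧ (a * c + b * d) ^ 2 ≤ (5 / 2 * α) ^ 2 := by
  have hw : x ^ 2 + y ^ 2 ≤ 2 * α := by linear_combination n1 + e1 + n3 + e3 + d1 + d2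
  have hw0 : 0 ≤ x ^ 2 + y ^ 2 := by positivity
  have P1 : a * x + b * y ≤ α / 2 := by linear_combination (n3 + n2 + hw0) / 2
  have P2 : -(3 / 2 * α) ≤ a * x + b * y := by linear_combination (n4 + n1 + hw) / 2
  have Q1 : c * x + d * y ≤ α / 2 := by linear_combination (e3 + e2 + hw0) / 2
  have Q2 : -(3 / 2 * α) ≤ c * x + d * y := by linear_combination (e4 + e1 + hw) / 2
  have R1 : a * c + b * d ≤ α / 2 := by linear_combination (d1 + n1 + e1) / 2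
  have R2 : -(5 / 2 * α) ≤ a * c + b * d := by
    linear_combination (d2 + n1 + e1 + hw) / 2 + P1 + Q1
  have hP : (a * x + b * y) ^ 2 ≤ (3 / 2 * α) ^ 2 := sq_le_sq' P2 (by linarith)
  have hQ : (c * x + d * y) ^ 2 ≤ (3 / 2 * α) ^ 2 := sq_le_sq' Q2 (by linarith)
  have hR : (a * c + b * d) ^ 2 ≤ (5 / 2 * α) ^ 2 := sq_le_sq' R2 (by linarith)
  refine ⟨?_, hR⟩
  have hX : 1 / 500 ≤ (a * d - b * c) ^ 2 := by
    have h1 : (a * d - b * c) ^ 2 = (a ^ 2 + b ^ 2) * (c ^ 2 + d ^ 2) - (a * c + b * d) ^ 2 := by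
      ring
    have h2 : 21 / 400 * (21 / 400) ≤ (a ^ 2 + b ^ 2) * (c ^ 2 + d ^ 2) :=
      mul_le_mul (by linarith) (by linarith) (by norm_num) (by positivity)
    have h3 : (5 / 2 * α) ^ 2 ≤ (1 / 40) ^ 2 := by gcongr; linarith
    rw [h1]; linarith
  have hI : (a * d - b * c) ^ 2 * (x ^ 2 + y ^ 2) ≤
      2 * ((c ^ 2 + d ^ 2) * (a * x + b * y) ^ 2 + (a ^ 2 + b ^ 2) * (c * x + d * y) ^ 2) := by
    linear_combination sq_nonneg (d * (a * x + b * y) + b * (c * x + d * y)) +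
      sq_nonneg (a * (c * x + d * y) + c * (a * x + b * y))
  have h4 : (c ^ 2 + d ^ 2) * (a * x + b * y) ^ 2 ≤ 1 / 16 * (3 / 2 * α) ^ 2 := by gcongr
  have h5 : (a ^ 2 + b ^ 2) * (c * x + d * y) ^ 2 ≤ 1 / 16 * (3 / 2 * α) ^ 2 := by gcongr
  have h6 : 1 / 500 * (x ^ 2 + y ^ 2) ≤ (a * d - b * c) ^ 2 * (x ^ 2 + y ^ 2) := by gcongr
  linear_combination 500 * (h6 + hI + 2 * h4 + 2 * h5) + 31 / 4 * sq_nonneg α

theorem truss1 {n e w : ℂ} {α : ℝ} (h0 : 0 ≤ α) (hα : α ≤ 1 / 100)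
    (n1 : ‖n‖ ^ 2 ≤ 1 / 16) (n2 : 1 / 16 - α ≤ ‖n‖ ^ 2)
    (e1 : ‖e‖ ^ 2 ≤ 1 / 16) (e2 : 1 / 16 - α ≤ ‖e‖ ^ 2)
    (n3 : ‖n + w‖ ^ 2 ≤ 1 / 16) (n4 : 1 / 16 - α ≤ ‖n + w‖ ^ 2)
    (e3 : ‖e + w‖ ^ 2 ≤ 1 / 16) (e4 : 1 / 16 - α ≤ ‖e + w‖ ^ 2)
    (d1 : 1 / 8 - α ≤ ‖n - e‖ ^ 2) (d2 : 1 / 8 - α ≤ ‖n + e + w‖ ^ 2) :
    ‖w‖ ≤ 17 * α ∧ ∃ σ : ℝ, (σ = 1 ∨ σ = -1) ∧ ‖e - σ * I * n‖ ≤ 16 * α := by
  simp only [nsq, add_re, add_im, sub_re, sub_im] at *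
  obtain ⟨h1, h2⟩ := truss_real h0 hα n1 n2 e1 e2 n3 n4 e3 e4 d1 d2
  refine ⟨abs_le_of_sq_le_sq' (by rw [nsq]; exact h1) (by positivity) |>.2, ?_⟩
  set a := n.re; set b := n.im; set c := e.re; set d := e.im
  have h3 : (c ^ 2 + d ^ 2 - (a ^ 2 + b ^ 2)) ^ 2 ≤ α ^ 2 := sq_le_sq' (by linarith) (by linarith)
  have key : ∀ σ : ℝ, σ ^ 2 = 1 → 0 ≤ σ * (a * d - b * c) → ‖e - σ * I * n‖ ≤ 16 * α := by
    intro σ hσ hs
    refine (abs_le_of_sq_le_sq' ?_ (by positivity)).2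
    rw [nsq]
    simp only [sub_re, sub_im, mul_re, mul_im, ofReal_re, ofReal_im, I_re, I_im]
    have u1 : (c - ((σ * 0 - 0 * 1) * a - (σ * 1 + 0 * 0) * b)) ^ 2 +
        (d - ((σ * 0 - 0 * 1) * b + (σ * 1 + 0 * 0) * a)) ^ 2 =
        c ^ 2 + d ^ 2 + (a ^ 2 + b ^ 2) - 2 * (σ * (a * d - b * c)) := by
      linear_combination (a ^ 2 + b ^ 2) * hσ
    rw [u1]
    set X := σ * (a * d - b * c) with hX
    set S := c ^ 2 + d ^ 2 + (a ^ 2 + b ^ 2) with hS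
    have u2 : (S - 2 * X) * (S + 2 * X) =
        (c ^ 2 + d ^ 2 - (a ^ 2 + b ^ 2)) ^ 2 + 4 * (a * c + b * d) ^ 2 := by
      rw [hX, hS]; linear_combination (-4 * (a * d - b * c) ^ 2) * hσ
    have u3 : 21 / 200 ≤ S + 2 * X := by linarith
    by_contra hc
    push Not at hc
    have u4 : (16 * α) ^ 2 * (21 / 200) ≤ (S - 2 * X) * (S + 2 * X) :=
      mul_le_mul hc.le u3 (by norm_num) ((sq_nonneg _).trans hc.le)
    have u5 : α ^ 2 ≤ 0 := by linarith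
    have u6 : 0 < (S - 2 * X) * (S + 2 * X) := mul_pos ((sq_nonneg _).trans_lt hc) (by linarith)
    linarith
  rcases le_total 0 (a * d - b * c) with h | h
  · exact ⟨1, Or.inl rfl, key 1 (by norm_num) (by linarith)⟩
  · exact ⟨-1, Or.inr rfl, key (-1) (by norm_num) (by linarith)⟩

/-- the six bars of one cell of the ladder -/
structure Cell (a b a' b' : ℂ) (α : ℝ) : Prop where
  n1 : ‖b - a‖ ^ 2 ≤ 1 / 16
  n2 : 1 / 16 - α ≤ ‖b - a‖ ^ 2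
  e1 : ‖a' - a‖ ^ 2 ≤ 1 / 16
  e2 : 1 / 16 - α ≤ ‖a' - a‖ ^ 2
  n3 : ‖b' - a'‖ ^ 2 ≤ 1 / 16
  n4 : 1 / 16 - α ≤ ‖b' - a'‖ ^ 2
  e3 : ‖b' - b‖ ^ 2 ≤ 1 / 16
  e4 : 1 / 16 - α ≤ ‖b' - b‖ ^ 2
  d1 : 1 / 8 - α ≤ ‖b - a'‖ ^ 2
  d2 : 1 / 8 - α ≤ ‖b' - a‖ ^ 2

theorem Cell.rigid {a b a' b' : ℂ} {α : ℝ} (h : Cell a b a' b' α) (h0 : 0 ≤ α)
    (hα : α ≤ 1 / 100) : ‖(b' - a') - (b - a)‖ ≤ 17 * α ∧
      ∃ σ : ℝ, (σ = 1 ∨ σ = -1) ∧ ‖(a' - a) - σ * I * (b - a)‖ ≤ 16 * α := by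
  refine truss1 h0 hα h.n1 h.n2 h.e1 h.e2 ?_ ?_ ?_ ?_ ?_ ?_
  · convert h.n3 using 3; ring
  · convert h.n4 using 3; ring
  · convert h.e3 using 3; ring
  · convert h.e4 using 3; ring
  · convert h.d1 using 3; ring
  · convert h.d2 using 3; ring

theorem chain {a b : ℕ → ℂ} {α : ℕ → ℝ} {N : ℕ} (hN : 0 < N) (h0 : ∀ k, 0 ≤ α k)
    (hs : ∑ k ∈ range N, α k ≤ 1 / 10000)
    (hc : ∀ k < N, Cell (a k) (b k) (a (k + 1)) (b (k + 1)) (α k))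
    (h2 : ∀ k, k + 1 < N → 1 / 4 - α k ≤ ‖a (k + 2) - a k‖ ^ 2) :
    ∃ ζ : ℂ, ‖ζ‖ = 1 ∧ ∀ k < N, ‖a (k + 1) - a k - ζ / 4‖ ≤ 1 / 200 := by
  have hα : ∀ k < N, α k ≤ 1 / 10000 := fun k hk =>
    (single_le_sum (fun i _ => h0 i) (mem_range.2 hk)).trans hs
  have hr := fun k hk => (hc k hk).rigid (h0 k) ((hα k hk).trans (by norm_num))
  choose hw σ hσ hσ' using hr
  have hσn : ∀ k hk, ‖((σ k hk : ℝ) : ℂ) * I‖ = 1 := fun k hk => by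
    rcases hσ k hk with h | h <;> simp [h]
  have h1 : ∀ k ≤ N, ‖(b k - a k) - (b 0 - a 0)‖ ≤ 17 * ∑ i ∈ range k, α i := by
    intro k hk
    induction k with
    | zero => simp
    | succ k ih =>
      rw [sum_range_succ]
      have := norm_add_le ((b (k + 1) - a (k + 1)) - (b k - a k)) ((b k - a k) - (b 0 - a 0))
      rw [sub_add_sub_cancel] at this
      linarith [ih (by omega), hw k (by omega)]
  have h3 : ∀ k (hk : k < N), σ k hk = σ 0 hN := by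
    intro k hk
    induction k with
    | zero => rfl
    | succ k ih =>
      rw [← ih (by omega)]
      by_contra hne
      have hk' : k < N := by omega
      have e : σ (k + 1) hk = -σ k hk' := by
        rcases hσ k hk' with h | h <;> rcases hσ (k + 1) hk with h' | h'
        · exact absurd (h'.trans h.symm) hne
        · rw [h, h']
        · rw [h, h', neg_neg]
        · exact absurd (h'.trans h.symm) hne
      have e2 : a (k + 2) - a k = (a (k + 1 + 1) - a (k + 1) -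
          (σ (k + 1) hk : ℝ) * I * (b (k + 1) - a (k + 1))) +
          (a (k + 1) - a k - (σ k hk' : ℝ) * I * (b k - a k)) -
          (σ k hk' : ℝ) * I * ((b (k + 1) - a (k + 1)) - (b k - a k)) := by
        rw [e]; push_cast; ring
      have e3 : ‖a (k + 2) - a k‖ ≤ 16 * α (k + 1) + 16 * α k + 17 * α k := by
        rw [e2]
        refine (norm_sub_le _ _).trans (add_le_add ((norm_add_le _ _).trans
          (add_le_add (hσ' _ hk) (hσ' _ hk'))) ?_)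
        rw [norm_mul, hσn, one_mul]; exact hw k hk'
      have e4 := h2 k hk
      have e5 : ‖a (k + 2) - a k‖ ≤ 1 / 100 := by linarith [hα k hk', hα _ hk]
      nlinarith [norm_nonneg (a (k + 2) - a k), hα k hk']
  set n0 := b 0 - a 0 with hn0
  have g1 := (hc 0 hN).n1
  have g2 := (hc 0 hN).n2
  rw [← hn0] at g1 g2
  have g3 : ‖n0‖ ≤ 1 / 4 := by nlinarith [norm_nonneg n0]
  have g4 : 1 / 4 - 4 * α 0 ≤ ‖n0‖ := by nlinarith [norm_nonneg n0, h0 0]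
  have g5 : 0 < ‖n0‖ := by linarith [hα 0 hN]
  have g6 : (‖n0‖ : ℂ) ≠ 0 := by exact_mod_cast g5.ne'
  refine ⟨(σ 0 hN : ℝ) * I * n0 / ‖n0‖, ?_, fun k hk => ?_⟩
  · rw [norm_div, norm_mul, hσn]; simp [g5.ne']
  · have e : a (k + 1) - a k - (σ 0 hN : ℝ) * I * n0 / ‖n0‖ / 4 =
        (a (k + 1) - a k - (σ k hk : ℝ) * I * (b k - a k)) +
        (σ 0 hN : ℝ) * I * ((b k - a k) - n0) +
        (σ 0 hN : ℝ) * I * (n0 / ‖n0‖ * ((‖n0‖ - 1 / 4 : ℝ) : ℂ)) := by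
      rw [h3 k hk]; push_cast; field_simp; ring
    rw [e]
    have s1 : ∑ i ∈ range k, α i ≤ 1 / 10000 :=
      (sum_le_sum_of_subset_of_nonneg (range_mono hk.le) fun i _ _ => h0 i).trans hs
    have s2 : ‖(σ 0 hN : ℝ) * I * ((b k - a k) - n0)‖ ≤ 17 / 10000 := by
      rw [norm_mul, hσn, one_mul]; linarith [h1 k hk.le]
    have s3 : ‖(σ 0 hN : ℝ) * I * (n0 / ‖n0‖ * ((‖n0‖ - 1 / 4 : ℝ) : ℂ))‖ ≤ 4 / 10000 := by
      rw [norm_mul, hσn, one_mul, norm_mul, norm_div, Complex.norm_real, Complex.norm_real,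
        norm_norm, div_self g5.ne', one_mul, Real.norm_eq_abs, abs_le]
      constructor <;> linarith [hα 0 hN]
    refine (norm_add₃_le).trans ?_
    linarith [hσ' k hk, hα k hk]

end Pool.Agent.P.MP_dba4bb_co
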