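import Mathlib

/-! Nearly straight tracks around a cone point, with lifted angles. -/

namespace Pool.Agent.P.MP_dba4bb_co

open Complex Real

/-- `θ` is an argument of `z` -/
def Pol (z : ℂ) (θ : ℝ) : Prop := z = ‖z‖ * cexp (θ * I)

theorem Pol.arg (z : ℂ) : Pol z z.arg := (norm_mul_exp_arg_mul_I z).symm

theorem Pol.re {z : ℂ} {θ : ℝ} (h : Pol z θ) : z.re = ‖z‖ * Real.cos θ := by
  conv_lhs => rw [h]
  simp [exp_ofReal_mul_I_re]

theorem Pol.im {z : ℂ} {θ : ℝ} (h : Pol z θ) : z.im = ‖z‖ * Real.sin θ := by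
  conv_lhs => rw [h]
  simp [exp_ofReal_mul_I_im]

theorem Pol.mul_exp {z : ℂ} {θ : ℝ} (h : Pol z θ) (t : ℝ) : Pol (cexp (t * I) * z) (t + θ) := by
  unfold Pol at *
  rw [norm_mul, norm_exp_ofReal_mul_I, one_mul]
  conv_lhs => rw [h]
  push_cast
  rw [add_mul, Complex.exp_add]; ring

theorem Pol.int {z : ℂ} {θ θ' : ℝ} (h0 : z ≠ 0) (h : Pol z θ) (h' : Pol z θ') :
    ∃ m : ℤ, θ = θ' + m * (2 * π) := by
  have h1 : cexp (θ * I) = cexp (θ' * I) :=
    mul_left_cancel₀ (by exact_mod_cast norm_ne_zero_iff.2 h0) (h.symm.trans h')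
  obtain ⟨m, hm⟩ := Complex.exp_eq_exp_iff_exists_int.1 h1
  refine ⟨m, ?_⟩
  have := congrArg Complex.im hm
  simpa using this

theorem Pol.uniq {z : ℂ} {θ θ' : ℝ} (h0 : z ≠ 0) (h : Pol z θ) (h' : Pol z θ')
    (hd : |θ - θ'| < 2 * π) : θ = θ' := by
  obtain ⟨m, rfl⟩ := Pol.int h0 h h'
  rw [add_sub_cancel_left, abs_mul, abs_of_pos two_pi_pos] at hd
  have : |(m : ℝ)| < 1 := by nlinarith [two_pi_pos]
  have : |m| < 1 := by exact_mod_cast this
  have : m = 0 := by rw [abs_lt] at this; omega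
  simp [this]

theorem Pol.negconj {z : ℂ} {θ : ℝ} (h : Pol z θ) : Pol (-(starRingEnd ℂ) z) (π - θ) := by
  unfold Pol at *
  rw [norm_neg, Complex.norm_conj]
  conv_lhs => rw [h]
  rw [map_mul, conj_ofReal, ← Complex.exp_conj, map_mul, conj_ofReal, conj_I]
  push_cast
  rw [sub_mul, sub_eq_add_neg, Complex.exp_add, exp_pi_mul_I]; ring_nf

theorem arg_im_pos {z : ℂ} (h : 0 < z.im) : 0 < z.arg ∧ z.arg < π := by
  refine ⟨lt_of_le_of_ne (arg_nonneg_iff.2 h.le) fun e => ?_, arg_lt_pi_iff.2 (Or.inr h.ne')⟩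
  exact h.ne' (arg_eq_zero_iff.1 e.symm).2

theorem half {u : ℕ → ℂ} {ψ : ℕ → ℝ} {m : ℕ} (pol : ∀ k ≤ m, Pol (u k) (ψ k))
    (near : ∀ k < m, |ψ (k + 1) - ψ k| < π) (step : ∀ k < m, ‖u (k + 1) - u k - 1 / 4‖ ≤ 1 / 200)
    (ha : |(u 0).re| ≤ 1 / 2) (hb : 3 / 2 ≤ (u 0).im) (h0 : 0 < ψ 0) (h1 : ψ 0 < π) :
    ∀ k ≤ m, -(π / 32) ≤ ψ k ∧ ψ k ≤ π := by
  have hre : ∀ k ≤ m, 49 / 200 * k - 1 / 2 ≤ (u k).re ∧ 3 / 2 - k / 200 ≤ (u k).im := by
    intro k hk
    induction k with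
    | zero => simp only [Nat.cast_zero]; constructor <;> linarith [(abs_le.1 ha).1]
    | succ k ih =>
      have e1 := (abs_re_le_norm _).trans (step k (by omega))
      have e2 := (abs_im_le_norm _).trans (step k (by omega))
      simp only [sub_re, sub_im, div_ofNat_re, div_ofNat_im, one_re, one_im] at e1 e2
      obtain ⟨i1, i2⟩ := ih (by omega)
      push_cast
      constructor <;> linarith [(abs_le.1 e1).1, (abs_le.1 e2).1]
  have hor : ∀ k, k + 1 ≤ m → (0 < (u k).re ∧ 0 < (u (k + 1)).re) ∨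
      (0 < (u k).im ∧ 0 < (u (k + 1)).im) := by
    intro k hk
    obtain ⟨a1, a2⟩ := hre k (by omega)
    obtain ⟨a3, a4⟩ := hre (k + 1) hk
    push_cast at a3 a4
    rcases le_total (k : ℝ) 3 with h | h
    · right; constructor <;> linarith
    · left; constructor <;> linarith
  have harg : ∀ k ≤ m, ψ k = (u k).arg := by
    intro k hk
    induction k with
    | zero =>
      have := arg_im_pos (show 0 < (u 0).im by linarith)
      refine Pol.uniq (fun e => by rw [e] at hb; norm_num at hb) (pol 0 hk) (Pol.arg _) ?_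
      rw [abs_lt]; constructor <;> linarith
    | succ k ih =>
      have e := near k (by omega)
      rw [ih (by omega), abs_lt] at e
      rcases hor k hk with ⟨c, d⟩ | ⟨c, d⟩
      · have c' := abs_lt.1 (abs_arg_lt_pi_div_two_iff.2 (Or.inl c))
        have d' := abs_lt.1 (abs_arg_lt_pi_div_two_iff.2 (Or.inl d))
        refine Pol.uniq (fun e => by rw [e] at d; norm_num at d) (pol _ hk) (Pol.arg _) ?_
        rw [abs_lt]; constructor <;> linarith
      · have c' := arg_im_pos c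
        have d' := arg_im_pos d
        refine Pol.uniq (fun e => by rw [e] at d; norm_num at d) (pol _ hk) (Pol.arg _) ?_
        rw [abs_lt]; constructor <;> linarith
  intro k hk
  rw [harg k hk]
  refine ⟨?_, arg_le_pi _⟩
  by_contra hc
  push Not at hc
  obtain ⟨a1, a2⟩ := hre k hk
  have b1 : (u k).im < 0 := arg_neg_iff.1 (by linarith [pi_pos])
  have b2 : 0 < (u k).re := by linarith
  have b3 := abs_lt.1 (abs_arg_lt_pi_div_two_iff.2 (Or.inl b2))
  have b4 : 1 / 16 < Real.sin (-(u k).arg) := by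
    have := Real.mul_le_sin (x := -(u k).arg) (by linarith [pi_pos]) (by linarith)
    refine lt_of_lt_of_le ?_ this
    rw [div_mul_eq_mul_div, lt_div_iff₀ pi_pos]; linarith
  rw [Real.sin_neg] at b4
  have b5 := (Pol.arg (u k)).im
  have b6 := re_le_norm (u k)
  nlinarith

/-- a nearly straight sequence of `2n+1` points far from the origin with lifted arguments -/
structure Tr (n : ℕ) (z : ℕ → ℂ) (θ : ℕ → ℝ) (ζ : ℂ) : Prop where
  unit : ‖ζ‖ = 1
  step : ∀ k < 2 * n, ‖z (k + 1) - z k - ζ / 4‖ ≤ 1 / 200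
  pol : ∀ k ≤ 2 * n, Pol (z k) (θ k)
  far : ∀ k ≤ 2 * n, 2 ≤ ‖z k‖
  near : ∀ k < 2 * n, |θ (k + 1) - θ k| < π

theorem Tr.rev {n : ℕ} {z : ℕ → ℂ} {θ : ℕ → ℝ} {ζ : ℂ} (h : Tr n z θ ζ) :
    Tr n (fun k => z (2 * n - k)) (fun k => θ (2 * n - k)) (-ζ) where
  unit := by rw [norm_neg, h.unit]
  step k hk := by
    have := h.step (2 * n - (k + 1)) (by omega)
    rw [show 2 * n - (k + 1) + 1 = 2 * n - k by omega, ← norm_neg] at this
    refine le_of_eq_of_le ?_ this
    congr 1; ring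
  pol k _ := h.pol _ (by omega)
  far k _ := h.far _ (by omega)
  near k hk := by
    have := h.near (2 * n - (k + 1)) (by omega)
    rwa [show 2 * n - (k + 1) + 1 = 2 * n - k by omega, abs_sub_comm] at this

theorem Tr.rot {n : ℕ} {z : ℕ → ℂ} {θ : ℕ → ℝ} {ζ : ℂ} (h : Tr n z θ ζ) (t : ℝ) :
    Tr n (fun k => cexp (t * I) * z k) (fun k => t + θ k) (cexp (t * I) * ζ) where
  unit := by rw [norm_mul, h.unit, norm_exp_ofReal_mul_I, one_mul]
  step k hk := by
    rw [show cexp (t * I) * z (k + 1) - cexp (t * I) * z k - cexp (t * I) * ζ / 4 =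
      cexp (t * I) * (z (k + 1) - z k - ζ / 4) by ring, norm_mul, norm_exp_ofReal_mul_I, one_mul]
    exact h.step k hk
  pol k hk := (h.pol k hk).mul_exp t
  far k hk := by rw [norm_mul, norm_exp_ofReal_mul_I, one_mul]; exact h.far k hk
  near k hk := by simpa using h.near k hk

theorem side_one {n : ℕ} {z : ℕ → ℂ} {θ : ℕ → ℝ} (h : Tr n z θ 1) {j : ℕ} (hj : j ≤ 2 * n)
    (ha : |(z j).re| ≤ 1 / 2) (hb : 3 / 2 ≤ (z j).im) :
    ∃ φ : ℝ, cexp (φ * I) = 1 ∧ ∀ k ≤ 2 * n, φ - π / 32 ≤ θ k ∧ θ k ≤ φ + π + π / 32 := by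
  have hz : z j ≠ 0 := fun e => by rw [e] at hb; norm_num at hb
  obtain ⟨m, hm⟩ := Pol.int hz (h.pol j hj) (Pol.arg _)
  have hφ : cexp (((m * (2 * π) : ℝ) : ℂ) * I) = 1 := by
    rw [← exp_int_mul_two_pi_mul_I m]; congr 1; push_cast; ring
  have hφ' : cexp (((-(m * (2 * π)) : ℝ) : ℂ) * I) = 1 := by
    rw [← exp_int_mul_two_pi_mul_I (-m)]; congr 1; push_cast; ring
  set φ : ℝ := m * (2 * π) with hφd
  have hp : ∀ k ≤ 2 * n, Pol (z k) (-φ + θ k) := fun k hk => by
    have := (h.pol k hk).mul_exp (-φ)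
    rwa [hφ', one_mul] at this
  have a0 := arg_im_pos (show 0 < (z j).im by linarith)
  have h1 := half (u := fun k => z (j + k)) (ψ := fun k => -φ + θ (j + k)) (m := 2 * n - j)
    (fun k hk => hp _ (by omega)) (fun k hk => by simpa [add_assoc] using h.near (j + k) (by omega))
    (fun k hk => h.step (j + k) (by omega)) ha hb (by simp only [add_zero]; linarith)
    (by simp only [add_zero]; linarith)
  have h2 := half (u := fun k => -(starRingEnd ℂ) (z (j - k)))
    (ψ := fun k => π - (-φ + θ (j - k))) (m := j)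
    (fun k hk => (hp _ (by omega)).negconj)
    (fun k hk => by
      have := h.near (j - (k + 1)) (by omega)
      rw [show j - (k + 1) + 1 = j - k by omega] at this
      convert this using 2; ring)
    (fun k hk => by
      have := h.step (j - (k + 1)) (by omega)
      rw [show j - (k + 1) + 1 = j - k by omega, ← Complex.norm_conj] at this
      convert this using 2
      simp only [map_sub, map_div₀, map_one, map_ofNat]; ring)
    (by simpa using ha) (by simpa using hb) (by simp only [Nat.sub_zero]; linarith)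
    (by simp only [Nat.sub_zero]; linarith)
  refine ⟨φ, hφ, fun k hk => ?_⟩
  rcases le_total j k with c | c
  · have := h1 (k - j) (by omega)
    simp only [show j + (k - j) = k by omega] at this
    constructor <;> linarith [pi_pos]
  · have := h2 (j - k) (by omega)
    simp only [show j - (j - k) = k by omega] at this
    constructor <;> linarith [pi_pos]

theorem Tr.drift {n : ℕ} {z : ℕ → ℂ} {θ : ℕ → ℝ} {ζ : ℂ} (h : Tr n z θ ζ) {k : ℕ} (d : ℕ)
    (hd : k + d ≤ 2 * n) : ‖z (k + d) - z k - d * ζ / 4‖ ≤ d / 200 := by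
  induction d with
  | zero => simp
  | succ d ih =>
    have e := norm_add_le (z (k + d + 1) - z (k + d) - ζ / 4) (z (k + d) - z k - d * ζ / 4)
    have e' : z (k + d + 1) - z (k + d) - ζ / 4 + (z (k + d) - z k - d * ζ / 4) =
      z (k + (d + 1)) - z k - (d + 1 : ℕ) * ζ / 4 := by push_cast; rw [add_assoc k]; ring
    rw [e'] at e
    push_cast at e ⊢
    linarith [ih (by omega), h.step (k + d) (by omega)]

theorem side_zero {n : ℕ} {z : ℕ → ℂ} {θ : ℕ → ℝ} (h : Tr n z θ 1) (hn : ‖z n‖ ≤ n / 8) :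
    ∃ j ≤ 2 * n, |(z j).re| ≤ 1 / 2 := by
  have h2 := h.far n (by omega)
  have a1 := (abs_re_le_norm _).trans (h.drift (k := 0) n (by omega))
  have a2 := (abs_re_le_norm _).trans (h.drift (k := n) n (by omega))
  have a3 := abs_le.1 ((abs_re_le_norm _).trans hn)
  simp only [sub_re, div_ofNat_re, mul_one, natCast_re, zero_add, ← two_mul] at a1 a2
  have ex : ∃ k, k ≤ 2 * n ∧ 0 < (z k).re := ⟨2 * n, le_rfl, by linarith [(abs_le.1 a2).1]⟩
  classical
  obtain ⟨b1, b2⟩ := Nat.find_spec ex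
  refine ⟨_, b1, ?_⟩
  obtain e | ⟨j, e⟩ := Nat.eq_zero_or_eq_succ_pred (Nat.find ex) |>.imp id
    fun e => (⟨_, e⟩ : ∃ j, Nat.find ex = j + 1)
  · rw [e] at b2; linarith [(abs_le.1 a1).1]
  · have c1 := Nat.find_min ex (m := j) (by omega)
    rw [e] at b1 b2 ⊢
    have c2 : (z j).re ≤ 0 := not_lt.1 fun c => c1 ⟨by omega, c⟩
    have c3 := (abs_re_le_norm _).trans (h.step j (by omega))
    simp only [sub_re, div_ofNat_re, one_re] at c3
    rw [abs_of_pos b2]; linarith [(abs_le.1 c3).2]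

theorem side {n : ℕ} {z : ℕ → ℂ} {θ : ℕ → ℝ} {ζ : ℂ} (h : Tr n z θ ζ) (hn : ‖z n‖ ≤ n / 8) :
    ∃ φ : ℝ, (ζ = cexp (φ * I) ∨ ζ = -cexp (φ * I)) ∧
      ∀ k ≤ 2 * n, φ - π / 32 ≤ θ k ∧ θ k ≤ φ + π + π / 32 := by
  have key : ∀ {z : ℕ → ℂ} {θ : ℕ → ℝ} {t : ℝ}, Tr n z θ (cexp (t * I)) → ∀ j ≤ 2 * n,
      |(cexp ((-t : ℝ) * I) * z j).re| ≤ 1 / 2 → 3 / 2 ≤ (cexp ((-t : ℝ) * I) * z j).im →
      ∃ φ : ℝ, cexp (t * I) = cexp (φ * I) ∧
        ∀ k ≤ 2 * n, φ - π / 32 ≤ θ k ∧ θ k ≤ φ + π + π / 32 := by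
    intro z θ t h j hj ha hb
    have h1 := h.rot (-t)
    rw [← Complex.exp_add, show ((-t : ℝ) : ℂ) * I + t * I = 0 by push_cast; ring,
      Complex.exp_zero] at h1
    obtain ⟨φ, e, e'⟩ := side_one h1 hj ha hb
    refine ⟨t + φ, ?_, fun k hk => ?_⟩
    · push_cast; rw [add_mul, Complex.exp_add, e, mul_one]
    · constructor <;> linarith [e' k hk]
  have hζ : ζ = cexp (ζ.arg * I) := by simpa [Pol, h.unit] using Pol.arg ζ
  set t := ζ.arg
  have h1 := h.rot (-t)
  rw [hζ, ← Complex.exp_add, show ((-t : ℝ) : ℂ) * I + t * I = 0 by push_cast; ring,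
    Complex.exp_zero] at h1
  obtain ⟨j, hj, ha⟩ := side_zero h1 (by rwa [norm_mul, norm_exp_ofReal_mul_I, one_mul])
  have hf := h1.far j hj
  have hb : 3 / 2 ≤ |(cexp ((-t : ℝ) * I) * z j).im| := by
    linarith [norm_le_abs_re_add_abs_im (cexp ((-t : ℝ) * I) * z j)]
  rcases le_abs.1 hb with hb | hb
  · obtain ⟨φ, e, e'⟩ := key (hζ ▸ h) j hj ha hb
    exact ⟨φ, Or.inl (hζ.trans e), e'⟩
  · have h2 := h.rev
    have e1 : -ζ = cexp ((t + π : ℝ) * I) := by
      push_cast; rw [add_mul, Complex.exp_add, exp_pi_mul_I, ← hζ]; ring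
    have e2 : cexp ((-(t + π) : ℝ) * I) = -cexp ((-t : ℝ) * I) := by
      push_cast; rw [neg_add, add_mul, Complex.exp_add, neg_mul (π : ℂ), exp_neg_pi_mul_I]; ring
    obtain ⟨φ, e, e'⟩ := key (e1 ▸ h2) (2 * n - j) (by omega)
      (by simpa only [e2, show 2 * n - (2 * n - j) = j by omega, neg_mul, neg_re, abs_neg]
        using ha)
      (by simpa only [e2, show 2 * n - (2 * n - j) = j by omega, neg_mul, neg_im] using hb)
    refine ⟨φ, Or.inr (by rw [← e, ← e1, neg_neg]), fun k hk => ?_⟩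
    simpa only [show 2 * n - (2 * n - k) = k by omega] using e' (2 * n - k) (by omega)

end Pool.Agent.P.MP_dba4bb_co
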