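import Pool.Agent.P.MP_dba4bb_co.C

/-! Two nearly straight tracks with different directions meet. -/

namespace Pool.Agent.P.MP_dba4bb_co

open Complex Real

/-- component of `v` transversal to `ξ` -/
def tv (v ξ : ℂ) : ℝ := v.im * ξ.re - v.re * ξ.im

theorem tv_le (v : ℂ) {ξ : ℂ} (h : ‖ξ‖ = 1) : |tv v ξ| ≤ ‖v‖ := by
  have : tv v ξ = (v * (starRingEnd ℂ) ξ).im := by simp [tv]; ring
  rw [this]
  refine (abs_im_le_norm _).trans_eq ?_
  rw [norm_mul, Complex.norm_conj, h, mul_one]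

theorem tv_swap (v ξ : ℂ) : tv v ξ = -tv ξ v := by simp [tv]; ring

theorem tv_neg (a b ξ : ℂ) : |tv (a - b) ξ| = |tv (b - a) ξ| := by
  rw [← abs_neg]; congr 1; simp [tv]; ring

theorem tv_step {a b ζ ξ : ℂ} {d e : ℝ} (h : ‖ξ‖ = 1) (H : ‖a - b - d * ζ / 4‖ ≤ e) (p : ℂ) :
    |tv (a - p) ξ - tv (b - p) ξ - d * tv ζ ξ / 4| ≤ e := by
  refine le_of_eq_of_le ?_ ((tv_le _ h).trans H)
  congr 1; simp [tv]; ring

theorem tv_self (ξ : ℂ) : tv ξ ξ = 0 := by simp [tv]; ring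

theorem cross_aux {n : ℕ} {z z' : ℕ → ℂ} {θ θ' : ℕ → ℝ} {ζ ζ' : ℂ} (h : Tr n z θ ζ)
    (h' : Tr n z' θ' ζ') (hσ : 3 / 16 ≤ |tv ζ ζ'|) (hn : 0 < n) (hD : ‖z n - z' n‖ ≤ n / 100)
    {k l : ℕ} (hk : k ≤ 2 * n) (hl : l ≤ 2 * n)
    (hmin : ∀ k' ≤ 2 * n, |tv (z k - z' l) ζ'| + |tv (z k - z' l) ζ| ≤
      |tv (z k' - z' l) ζ'| + |tv (z k' - z' l) ζ|)
    (hc : |tv (z k - z' l) ζ'| ≤ n / 50) : |tv (z k - z' l) ζ'| ≤ |tv ζ ζ'| / 8 + 1 / 200 := by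
  have hn' : (0 : ℝ) < n := by exact_mod_cast hn
  have b1 : |tv (z n - z' l) ζ'| ≤ n / 100 + n / 200 := by
    have c1 := (tv_le _ h'.unit).trans hD
    rw [tv_neg] at c1 ⊢
    rcases le_total l n with c | c
    · have := tv_step (d := (n - l : ℕ)) h'.unit (h'.drift (k := l) (n - l) (by omega)) (z n)
      rw [show l + (n - l) = n by omega, tv_self] at this
      have e : ((n - l : ℕ) : ℝ) ≤ n := by exact_mod_cast Nat.sub_le n l
      rw [abs_le] at *; constructor <;> linarith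
    · have := tv_step (d := (l - n : ℕ)) h'.unit (h'.drift (k := n) (l - n) (by omega)) (z n)
      rw [show n + (l - n) = l by omega, tv_self] at this
      have e : ((l - n : ℕ) : ℝ) ≤ n := by exact_mod_cast (by omega : l - n ≤ n)
      rw [abs_le] at *; constructor <;> linarith
  have b2 : 3 / 16 * n ≤ |n * tv ζ ζ'| := by
    rw [abs_mul, abs_of_pos hn']; nlinarith
  have k0 : k ≠ 0 := by
    rintro rfl
    have := tv_step (d := n) h'.unit (h.drift (k := 0) n (by omega)) (z' l)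
    rw [zero_add] at this
    rw [abs_le] at *
    rcases le_abs.1 b2 with c | c <;> linarith
  have k1 : k ≠ 2 * n := by
    rintro rfl
    have := tv_step (d := n) h'.unit (h.drift (k := n) n (by omega)) (z' l)
    rw [← two_mul] at this
    rw [abs_le] at *
    rcases le_abs.1 b2 with c | c <;> linarith
  obtain ⟨j, rfl⟩ : ∃ j, k = j + 1 := ⟨k - 1, by omega⟩
  have s1 := h.step j (by omega)
  have s2 := h.step (j + 1) (by omega)
  rw [← one_mul ζ, ← ofReal_one] at s1 s2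
  have t1 := tv_step h'.unit s1 (z' l)
  have t2 := tv_step h'.unit s2 (z' l)
  have t3 := tv_step h.unit s1 (z' l)
  have t4 := tv_step h.unit s2 (z' l)
  rw [tv_self] at t3 t4
  have m1 := hmin j (by omega)
  have m2 := hmin (j + 1 + 1) (by omega)
  have u1 := abs_sub_abs_le_abs_sub (tv (z j - z' l) ζ) (tv (z (j + 1) - z' l) ζ)
  have u2 := abs_sub_abs_le_abs_sub (tv (z (j + 1 + 1) - z' l) ζ) (tv (z (j + 1) - z' l) ζ)
  rw [abs_sub_comm] at u1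
  simp only [mul_zero, zero_div, sub_zero, one_mul] at t1 t2 t3 t4
  have v1 : |tv (z (j + 1) - z' l) ζ'| - 1 / 200 ≤ |tv (z j - z' l) ζ'| := by linarith
  have v2 : |tv (z (j + 1) - z' l) ζ'| - 1 / 200 ≤ |tv (z (j + 1 + 1) - z' l) ζ'| := by linarith
  rw [abs_le] at t1 t2
  generalize tv (z (j + 1) - z' l) ζ' = A at *
  generalize tv (z j - z' l) ζ' = A1 at *
  generalize tv (z (j + 1 + 1) - z' l) ζ' = A2 at *
  generalize tv ζ ζ' = s at *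
  rcases abs_cases A with a | a <;> rcases abs_cases A1 with b | b <;>
    rcases abs_cases A2 with c | c <;> rcases abs_cases s with d | d <;> linarith

theorem cross {n : ℕ} {z z' : ℕ → ℂ} {θ θ' : ℕ → ℝ} {ζ ζ' : ℂ} (h : Tr n z θ ζ)
    (h' : Tr n z' θ' ζ') (hσ : 3 / 16 ≤ |tv ζ ζ'|) (hn : 0 < n) (hD : ‖z n - z' n‖ ≤ n / 100) :
    ∃ k ≤ 2 * n, ∃ l ≤ 2 * n, ‖z k - z' l‖ ≤ 2 / 5 := by
  obtain ⟨⟨k, l⟩, hkl, hmin⟩ := Finset.exists_min_image
    (Finset.range (2 * n + 1) ×ˢ Finset.range (2 * n + 1))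
    (fun p => |tv (z p.1 - z' p.2) ζ'| + |tv (z p.1 - z' p.2) ζ|) ⟨(0, 0), by simp⟩
  simp only [Finset.mem_product, Finset.mem_range, Nat.lt_succ_iff, Prod.forall] at hkl hmin
  obtain ⟨hk, hl⟩ := hkl
  have c0 := hmin n n ⟨by omega, by omega⟩
  have c1 := (tv_le _ h.unit).trans hD
  have c2 := (tv_le _ h'.unit).trans hD
  have a1 := cross_aux h h' hσ hn hD hk hl (fun k' hk' => hmin k' l ⟨hk', hl⟩)
    (by linarith [abs_nonneg (tv (z k - z' l) ζ)])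
  have e : |tv ζ' ζ| = |tv ζ ζ'| := by rw [tv_swap, abs_neg]
  have a2 := cross_aux h' h (e ▸ hσ) hn (by rwa [norm_sub_rev]) hl hk
    (fun l' hl' => by
      simp only [tv_neg (z' _)]
      linarith [hmin k l' ⟨hk, hl'⟩])
    (by rw [tv_neg]; linarith [abs_nonneg (tv (z k - z' l) ζ')])
  rw [tv_neg, e] at a2
  refine ⟨k, hk, l, hl, ?_⟩
  set v := z k - z' l
  have id : (tv ζ ζ' : ℂ) * v = (tv v ζ' : ℝ) * ζ - (tv v ζ : ℝ) * ζ' := by
    apply Complex.ext <;> simp [tv] <;> ring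
  have := norm_sub_le ((tv v ζ' : ℝ) * ζ) ((tv v ζ : ℝ) * ζ')
  rw [← id] at this
  simp only [norm_mul, Complex.norm_real, Real.norm_eq_abs, h.unit, h'.unit, mul_one] at this
  nlinarith [norm_nonneg v]

theorem Pol.close {z z' : ℂ} {θ θ' : ℝ} (h : Pol z θ) (h' : Pol z' θ') (f : 2 ≤ ‖z‖)
    (f' : 2 ≤ ‖z'‖) (hd : ‖z - z'‖ ≤ 2 / 5) (ha : |θ - θ'| ≤ 15 * π / 8) : |θ - θ'| < π / 2 := by
  have e : ‖z - z'‖ ^ 2 = (‖z‖ - ‖z'‖) ^ 2 + 2 * (‖z‖ * ‖z'‖) * (1 - Real.cos (θ - θ')) := by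
    rw [Complex.sq_norm, normSq_apply, sub_re, sub_im, h.re, h.im, h'.re, h'.im, Real.cos_sub]
    linear_combination ‖z‖ ^ 2 * Real.sin_sq_add_cos_sq θ + ‖z'‖ ^ 2 * Real.sin_sq_add_cos_sq θ'
  have e1 : 4 ≤ ‖z‖ * ‖z'‖ := by nlinarith
  have e2 : ‖z - z'‖ ^ 2 ≤ 4 / 25 := by nlinarith [norm_nonneg (z - z')]
  have e3 : 49 / 50 ≤ Real.cos (θ - θ') := by
    nlinarith [sq_nonneg (‖z‖ - ‖z'‖), Real.cos_le_one (θ - θ')]
  rw [← Real.cos_abs] at e3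
  set x := |θ - θ'|
  by_contra hc
  push Not at hc
  rcases le_total x (3 * π / 2) with c | c
  · linarith [Real.cos_nonpos_of_pi_div_two_le_of_le hc (by linarith)]
  · have e4 := Real.cos_le_one_sub_mul_cos_sq (x := 2 * π - x)
      (by rw [abs_le]; constructor <;> linarith [pi_pos])
    rw [Real.cos_two_pi_sub] at e4
    have e5 : (π / 8) ^ 2 ≤ (2 * π - x) ^ 2 := by gcongr; linarith
    have e6 : 2 / π ^ 2 * (π / 8) ^ 2 = 1 / 32 := by field_simp; norm_num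
    have e7 : 2 / π ^ 2 * (π / 8) ^ 2 ≤ 2 / π ^ 2 * (2 * π - x) ^ 2 := by gcongr
    linarith

theorem sin_lower {a : ℝ} (h1 : 3 * π / 32 ≤ |a|) (h2 : |a| ≤ 3 * π / 4) :
    3 / 16 ≤ |Real.sin a| := by
  have key : ∀ x, 3 * π / 32 ≤ x → x ≤ π / 2 → 3 / 16 ≤ Real.sin x := fun x a b => by
    refine le_trans ?_ (Real.mul_le_sin (by linarith [pi_pos]) b)
    rw [div_mul_eq_mul_div, le_div_iff₀ pi_pos]; linarith
  have : 3 / 16 ≤ Real.sin |a| := by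
    rcases le_total |a| (π / 2) with c | c
    · exact key _ h1 c
    · rw [← Real.sin_pi_sub]; exact key _ (by linarith [pi_pos]) (by linarith)
  refine this.trans ?_
  rcases abs_cases a with c | c
  · rw [c.1]; exact le_abs_self _
  · rw [c.1, Real.sin_neg]; exact neg_le_abs _

theorem meet {n : ℕ} {z z' : ℕ → ℂ} {θ θ' : ℕ → ℝ} {ζ ζ' : ℂ} (h : Tr n z θ ζ)
    (h' : Tr n z' θ' ζ') (hn : 0 < n) (hD : ‖z n - z' n‖ ≤ n / 100) {φ φ' : ℝ}
    (e : ζ = cexp (φ * I) ∨ ζ = -cexp (φ * I)) (e' : ζ' = cexp (φ' * I) ∨ ζ' = -cexp (φ' * I))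
    (r : ∀ k ≤ 2 * n, φ - π / 32 ≤ θ k ∧ θ k ≤ φ + π + π / 32)
    (r' : ∀ k ≤ 2 * n, φ' - π / 32 ≤ θ' k ∧ θ' k ≤ φ' + π + π / 32)
    (h1 : 3 * π / 32 ≤ |φ - φ'|) (h2 : |φ - φ'| ≤ 3 * π / 4) :
    ∃ k ≤ 2 * n, ∃ l ≤ 2 * n, ‖z k - z' l‖ ≤ 2 / 5 ∧ |θ k - θ' l| < π / 2 := by
  have hσ : |tv ζ ζ'| = |Real.sin (φ - φ')| := by
    have : tv (cexp (φ * I)) (cexp (φ' * I)) = Real.sin (φ - φ') := by
      simp only [tv, exp_ofReal_mul_I_re, exp_ofReal_mul_I_im, Real.sin_sub]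
    rw [← this]
    rcases e with rfl | rfl <;> rcases e' with rfl | rfl
    · rfl
    · rw [← abs_neg]; congr 1; simp only [tv, neg_re, neg_im]; ring
    · rw [← abs_neg]; congr 1; simp only [tv, neg_re, neg_im]; ring
    · congr 1; simp only [tv, neg_re, neg_im]; ring
  obtain ⟨k, hk, l, hl, c⟩ := cross h h' (hσ ▸ sin_lower h1 h2) hn hD
  refine ⟨k, hk, l, hl, c, (h.pol k hk).close (h'.pol l hl) (h.far k hk) (h'.far l hl) c ?_⟩
  rw [abs_le] at h2 ⊢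
  constructor <;> linarith [r k hk, r' l hl, pi_pos]

end Pool.Agent.P.MP_dba4bb_co
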