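import Mathlib

/-! Wrapping the surface of a cube with a rectangle of paper. -/

namespace Pool.Agent.P.MP_dba4bb_co

open Set

/-- Euclidean three-space -/
abbrev E3 : Type := EuclideanSpace ℝ (Fin 3)

/-- the paper `[0,x] × [0,y]` in the Euclidean plane `ℂ` -/
def Rect (x y : ℝ) : Set ℂ := {p | p.re ∈ Icc 0 x ∧ p.im ∈ Icc 0 y}

/-- the surface of the cube `[0,s]³` -/
def Surf (s : ℝ) : Set E3 := {q | (∀ i, q i ∈ Icc 0 s) ∧ ∃ i, q i = 0 ∨ q i = s}

/-- the paper is cut into finitely many closed pieces, and a map that does not increase distances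
on each piece sends the paper onto the surface of the cube -/
def Wraps (x y s : ℝ) : Prop :=
  ∃ (f : ℂ → E3) (𝓕 : Set (Set ℂ)), 𝓕.Finite ∧ ⋃₀ 𝓕 = Rect x y ∧
    (∀ F ∈ 𝓕, IsClosed F ∧ ∀ p ∈ F, ∀ q ∈ F, dist (f p) (f q) ≤ dist p q) ∧
    f '' Rect x y = Surf s

end Pool.Agent.P.MP_dba4bb_co
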