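import Pool.Agent.P.MP_dba4bb_co.A
import Pool.Agent.P.MP_dba4bb_co.B

/-! Charts at a vertex of the cube and the accounting of wasted area. -/

namespace Pool.Agent.P.MP_dba4bb_co

open Set Metric MeasureTheory

noncomputable section

/-- unfolding of two adjacent faces -/
def ch (c : Fin 3) (x : E3) : ℂ := ⟨x c - x (c + 2), x (c + 1)⟩

/-- folding of the plane along the imaginary axis -/
def un (c : Fin 3) (w : ℂ) : E3 :=
  WithLp.toLp 2 fun i => if i = c then max w.re 0 else if i = c + 1 then w.im else max (-w.re) 0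

theorem sum3 (c : Fin 3) (g : Fin 3 → ℝ) : ∑ i, g i = g c + g (c + 1) + g (c + 2) := by
  fin_cases c <;> simp [Fin.sum_univ_three] <;> ring

theorem fin3 (c i : Fin 3) : i = c ∨ i = c + 1 ∨ i = c + 2 := by revert c i; decide

theorem un0 (c : Fin 3) (w : ℂ) : un c w c = max w.re 0 := by simp [un]
theorem un1 (c : Fin 3) (w : ℂ) : un c w (c + 1) = w.im := by
  have : c + 1 ≠ c := by revert c; decide
  simp [un, this]
theorem un2 (c : Fin 3) (w : ℂ) : un c w (c + 2) = max (-w.re) 0 := by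
  have h1 : c + 2 ≠ c := by revert c; decide
  have h2 : c + 2 ≠ c + 1 := by revert c; decide
  simp only [un, h1, h2, if_false]

theorem ch_un (c : Fin 3) (w : ℂ) : ch c (un c w) = w := by
  apply Complex.ext
  · simp only [ch, un0, un2]
    rcases le_total w.re 0 with h | h <;> simp [h]
  · simp only [ch, un1]

theorem un_ch {c : Fin 3} {x : E3} (h : ∀ i, 0 ≤ x i) (h' : x c = 0 ∨ x (c + 2) = 0) :
    un c (ch c x) = x := by
  ext i
  rcases fin3 c i with rfl | rfl | rfl
  · rw [un0]; rcases h' with e | e <;> simp [ch, e, h]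
  · rw [un1]; rfl
  · rw [un2]; rcases h' with e | e <;> simp [ch, e, h]

theorem dsq3 (c : Fin 3) (x y : E3) : dist x y ^ 2 =
    (x c - y c) ^ 2 + (x (c + 1) - y (c + 1)) ^ 2 + (x (c + 2) - y (c + 2)) ^ 2 := by
  rw [EuclideanSpace.dist_sq_eq, sum3 c]; simp only [Real.dist_eq, sq_abs]

theorem dsq2 (z w : ℂ) : dist z w ^ 2 = (z.re - w.re) ^ 2 + (z.im - w.im) ^ 2 := by
  rw [dist_eq_norm, nsq]; rfl

theorem un_lip (c : Fin 3) (z w : ℂ) : dist (un c z) (un c w) ≤ dist z w := by
  refine (abs_le_of_sq_le_sq' ?_ dist_nonneg).2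
  rw [dsq3 c, dsq2, un0, un0, un1, un1, un2, un2]
  rcases le_total z.re 0 with h | h <;> rcases le_total w.re 0 with h' | h' <;>
    simp [h, h'] <;> nlinarith

theorem ch_lip (c : Fin 3) (x y : E3) : dist (ch c x) (ch c y) ≤ 2 * dist x y := by
  refine (abs_le_of_sq_le_sq' ?_ (by positivity)).2
  rw [mul_pow, dsq3 c, dsq2]
  simp only [ch]
  nlinarith [sq_nonneg (x c - y c + (x (c + 2) - y (c + 2))), sq_nonneg (x c - y c),
    sq_nonneg (x (c + 1) - y (c + 1)), sq_nonneg (x (c + 2) - y (c + 2))]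

theorem ch_iso {c : Fin 3} {x y : E3}
    (h : (x c = 0 ∧ y c = 0) ∨ (x (c + 2) = 0 ∧ y (c + 2) = 0)) :
    dist (ch c x) (ch c y) ≤ dist x y := by
  refine (abs_le_of_sq_le_sq' ?_ dist_nonneg).2
  rw [dsq3 c, dsq2]
  rcases h with ⟨a, b⟩ | ⟨a, b⟩ <;> simp only [ch, a, b] <;> nlinarith

theorem coord_le (x y : E3) (i : Fin 3) : |x i - y i| ≤ dist x y := by
  simpa [Real.dist_eq] using PiLp.dist_apply_le x y i

/-- the three faces at the vertex `0` -/
def Cone (x : E3) : Prop := (∀ i, 0 ≤ x i) ∧ ∃ i, x i = 0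

theorem Cone.dom {x : E3} (h : Cone x) {c : Fin 3} (hc : 0 < x (c + 1)) :
    x c = 0 ∨ x (c + 2) = 0 := by
  obtain ⟨i, hi⟩ := h.2
  rcases fin3 c i with rfl | rfl | rfl
  · exact Or.inl hi
  · exact absurd hi hc.ne'
  · exact Or.inr hi

theorem cone_of_surf {s : ℝ} {x : E3} (h : x ∈ Surf s) (hs : ‖x‖ < s) : Cone x := by
  obtain ⟨h1, i, hi⟩ := h
  refine ⟨fun j => (h1 j).1, i, hi.resolve_right fun e => ?_⟩
  have := coord_le x 0 i
  simp only [PiLp.zero_apply, sub_zero, dist_zero_right] at this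
  linarith [le_abs_self (x i)]

/-- maps that do not increase distances -/
def NE {X Y : Type*} [PseudoMetricSpace X] [PseudoMetricSpace Y] (g : X → Y) : Prop :=
  ∀ p q, dist (g p) (g q) ≤ dist p q

theorem NE.lip {X Y : Type*} [PseudoMetricSpace X] [PseudoMetricSpace Y] {g : X → Y}
    (h : NE g) : LipschitzWith 1 g := LipschitzWith.of_dist_le_mul fun p q => by simpa using h p q

theorem chart_lip {g : ℂ → E3} (hg : NE g) {K : Set ℂ} (hK : Convex ℝ K) {c : Fin 3}
    (h : ∀ p ∈ K, Cone (g p) ∧ 0 < g p (c + 1)) {p q : ℂ} (hp : p ∈ K) (hq : q ∈ K) :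
    dist (ch c (g p)) (ch c (g q)) ≤ dist p q := by
  have hc : ∀ i, IsClosed {p | g p i = 0} := fun i =>
    isClosed_eq (by have := hg.lip.continuous; fun_prop) continuous_const
  refine glue (g := fun p => ch c (g p)) hK (𝓕 := {{p | g p c = 0}, {p | g p (c + 2) = 0}})
    (toFinite _) ?_ ?_ ?_ hp hq
  · rintro F (rfl | rfl) <;> exact hc _
  · intro r hr
    rcases (h r hr).1.dom (h r hr).2 with e | e
    · exact ⟨_, Or.inl rfl, e⟩
    · exact ⟨_, Or.inr rfl, e⟩
  · rintro F (rfl | rfl) a ha b hb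
    · exact (ch_iso (Or.inl ⟨ha.1, hb.1⟩)).trans (hg a b)
    · exact (ch_iso (Or.inr ⟨ha.1, hb.1⟩)).trans (hg a b)

/-- area measure in space -/
abbrev ar : Measure E3 := μHE[2]

theorem vol_eq : (volume : Measure ℂ) = μHE[2] := by
  rw [← InnerProductSpace.euclideanHausdorffMeasure_eq_volume, Complex.finrank_real_complex]

theorem ar_image {g : ℂ → E3} (hg : NE g) (S : Set ℂ) : ar (g '' S) ≤ volume S := by
  have := hg.lip.hausdorffMeasure_image_le (d := (2 : ℕ)) (by positivity) S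
  rw [vol_eq, ar, Measure.euclideanHausdorffMeasure_def, Measure.euclideanHausdorffMeasure_def,
    Measure.smul_apply, Measure.smul_apply]
  simp only [ENNReal.coe_one, ENNReal.one_rpow, one_mul] at this
  exact smul_le_smul_left _ this

theorem ar_ch (c : Fin 3) (T : Set E3) : volume (ch c '' T) ≤ 4 * ar T := by
  have h : LipschitzWith 2 (ch c) := LipschitzWith.of_dist_le_mul fun p q => ch_lip c p q
  have := h.hausdorffMeasure_image_le (d := (2 : ℕ)) (by positivity) T
  rw [vol_eq, ar, Measure.euclideanHausdorffMeasure_def, Measure.euclideanHausdorffMeasure_def,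
    Measure.smul_apply, Measure.smul_apply, ENNReal.smul_def, ENNReal.smul_def, smul_eq_mul,
    smul_eq_mul, mul_left_comm]
  rw [ENNReal.rpow_natCast, show ((2 : NNReal) : ENNReal) ^ 2 = 4 by norm_num] at this
  exact mul_le_mul_right this _

theorem ar_real {g : ℂ → E3} (hg : NE g) {S : Set ℂ} (hS : volume S ≠ ⊤) :
    ar.real (g '' S) ≤ volume.real S := ENNReal.toReal_mono hS (ar_image hg S)

/-- unit cells of the strip -/
def Cl (m : ℕ) : Set ℂ := {p | p.re ∈ Icc (0 : ℝ) 1 ∧ p.im ∈ Icc (m : ℝ) (m + 1)}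

/-- union of cells -/
def U (M : Finset ℕ) : Set ℂ := ⋃ m ∈ M, Cl m

theorem Cl_compact (m : ℕ) : IsCompact (Cl m) := isCompact_Icc.reProdIm isCompact_Icc

theorem vol_box (a b c d : ℝ) : volume {p : ℂ | p.re ∈ Ioo a b ∧ p.im ∈ Ioo c d} =
    ENNReal.ofReal (b - a) * ENNReal.ofReal (d - c) := by
  have := Complex.volume_preserving_equiv_real_prod.measure_preimage_equiv (Ioo a b ×ˢ Ioo c d)
  rw [Measure.volume_eq_prod, Measure.prod_prod, Real.volume_Ioo, Real.volume_Ioo] at this
  exact this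

theorem vol_Cl (m : ℕ) : volume.real (Cl m) = 1 := by
  have := Complex.volume_preserving_equiv_real_prod.measure_preimage_equiv
    (Icc (0 : ℝ) 1 ×ˢ Icc (m : ℝ) (m + 1))
  rw [Measure.volume_eq_prod, Measure.prod_prod, Real.volume_Icc, Real.volume_Icc] at this
  have e : volume (Cl m) = _ := this
  rw [measureReal_def, e]; simp

theorem U_compact (M : Finset ℕ) : IsCompact (U M) := M.isCompact_biUnion fun m _ => Cl_compact m

theorem vol_U (M : Finset ℕ) : volume.real (U M) ≤ M.card := by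
  simpa [vol_Cl, U] using measureReal_biUnion_finset_le (μ := volume) M Cl

/-- weights that dominate the wasted area -/
def Acc (g : ℂ → E3) (w : ℕ → ℝ) : Prop :=
  (∀ m, 0 ≤ w m) ∧ ∀ M : Finset ℕ, (M.card : ℝ) ≤ ar.real (g '' U M) + ∑ m ∈ M, w m

theorem ar_fin {g : ℂ → E3} (hg : NE g) {S : Set ℂ} (hS : IsCompact S) : ar (g '' S) ≠ ⊤ :=
  ne_top_of_le_ne_top hS.measure_lt_top.ne (ar_image hg S)

theorem exists_acc {g : ℂ → E3} (hg : NE g) : ∃ w, Acc g w ∧
    ∀ N, ∑ m ∈ Finset.range N, w m = N - ar.real (g '' U (Finset.range N)) := by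
  set F : ℕ → Set E3 := fun m => g '' Cl m with hF
  have hm : ∀ m, MeasurableSet (disjointed F m) := MeasurableSet.disjointed fun m =>
    ((Cl_compact m).image hg.lip.continuous).measurableSet
  have hf : ∀ m, ar (F m) ≠ ⊤ := fun m => ar_fin hg (Cl_compact m)
  have hs : ∀ M : Finset ℕ, ar.real (⋃ m ∈ M, disjointed F m) =
      ∑ m ∈ M, ar.real (disjointed F m) := fun M =>
    measureReal_biUnion_finset (fun a _ b _ h => disjoint_disjointed F h) (fun m _ => hm m)
      fun m _ => measure_ne_top_of_subset (disjointed_subset F m) (hf m)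
  refine ⟨fun m => 1 - ar.real (disjointed F m), ⟨fun m => ?_, fun M => ?_⟩, fun N => ?_⟩
  · have := measureReal_mono (disjointed_subset F m) (hf m)
    linarith [ar_real hg (Cl_compact m).measure_lt_top.ne, vol_Cl m]
  · have : ar.real (⋃ m ∈ M, disjointed F m) ≤ ar.real (g '' U M) := by
      refine measureReal_mono ?_ (ar_fin hg (U_compact M))
      rw [U, image_iUnion₂]
      exact iUnion₂_mono fun m _ => disjointed_subset F m
    rw [Finset.sum_sub_distrib, ← hs]; simp; linarith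
  · rw [Finset.sum_sub_distrib, ← hs, U, image_iUnion₂]
    cases N with
    | zero => simp
    | succ N => rw [biUnion_range_succ_disjointed, partialSups_eq_biUnion_range]; simp [hF]

theorem Acc.defect {g : ℂ → E3} (hg : NE g) {w : ℕ → ℝ} (h : Acc g w) {M : Finset ℕ} {B : Set ℂ}
    (hB : MeasurableSet B) (hBU : B ⊆ U M) :
    volume.real B ≤ ar.real (g '' B) + ∑ m ∈ M, w m := by
  have f := (U_compact M).measure_lt_top (μ := volume) |>.ne
  have h1 := measureReal_sdiff hBU hB f
  have h2 : ar.real (g '' U M) ≤ ar.real (g '' B) + ar.real (g '' (U M \ B)) := by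
    rw [← union_sdiff_cancel hBU, image_union, union_sdiff_cancel hBU]
    exact measureReal_union_le _ _
  have h3 := ar_real hg (measure_ne_top_of_subset sdiff_subset f : volume (U M \ B) ≠ ⊤)
  linarith [h.2 M, vol_U M]

theorem pair {g : ℂ → E3} (hg : NE g) {w : ℕ → ℝ} (h : Acc g w) {M : Finset ℕ} {p q : ℂ}
    {c : Fin 3} (hU : Dk p ∪ Dk q ⊆ U M) (hc : ∀ r ∈ Dk p ∪ Dk q, Cone (g r) ∧ 0 < g r (c + 1))
    {t : ℝ} (h1 : t ≤ dist p q) (h2 : t ≤ 3 / 5) :
    t - 5 / 2 * ∑ m ∈ M, w m ≤ dist (ch c (g p)) (ch c (g q)) := by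
  have h0 : 0 ≤ ∑ m ∈ M, w m := Finset.sum_nonneg fun m _ => h.1 m
  rcases le_total t (dist (ch c (g p)) (ch c (g q))) with e | e
  · linarith
  have a1 := lens e h1 h2
  have a2 := h.defect hg (measurableSet_closedBall.union measurableSet_closedBall) hU
  have f : volume (Dk (ch c (g p)) ∪ Dk (ch c (g q))) ≠ ⊤ :=
    measure_union_ne_top measure_closedBall_lt_top.ne measure_closedBall_lt_top.ne
  have a3 : ar.real (g '' (Dk p ∪ Dk q)) ≤
      ar.real (un c '' (Dk (ch c (g p)) ∪ Dk (ch c (g q)))) := by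
    refine measureReal_mono ?_ (ne_top_of_le_ne_top f (ar_image (un_lip c) _))
    rintro _ ⟨r, hr, rfl⟩
    refine ⟨ch c (g r), ?_, un_ch (hc r hr).1.1 ((hc r hr).1.dom (hc r hr).2)⟩
    rcases hr with hr | hr
    · exact Or.inl ((chart_lip hg (convex_closedBall _ _) (fun r hr => hc r (Or.inl hr)) hr
        (mem_closedBall_self (by norm_num))).trans hr)
    · exact Or.inr ((chart_lip hg (convex_closedBall _ _) (fun r hr => hc r (Or.inr hr)) hr
        (mem_closedBall_self (by norm_num))).trans hr)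
  linarith [ar_real (un_lip c) f]

end

end Pool.Agent.P.MP_dba4bb_co
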