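import Pool.Agent.P.MP_dba4bb_co.D
import Pool.Agent.P.MP_dba4bb_co.E

/-! Developing a long strip with little waste near a vertex of the cube. -/

namespace Pool.Agent.P.MP_dba4bb_co

open Set Metric MeasureTheory Complex Real

noncomputable section

/-- residue modulo three -/
def ix (j : ℤ) : Fin 3 := ⟨(j % 3).toNat, by omega⟩

theorem ix_succ (j : ℤ) : ix (j + 1) = ix j + 1 := by
  ext; simp only [ix, Fin.val_add, Fin.val_one]; omega

theorem ix_three (j m : ℤ) : ix (j + 3 * m) = ix j := by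
  ext; simp only [ix]; omega

theorem f3a (c : Fin 3) : c + 1 + 1 = c + 2 := by revert c; decide
theorem f3b (c : Fin 3) : c + 1 + 2 = c := by revert c; decide

/-- developing map on the sheet `j` -/
def Ph (j : ℤ) (x : E3) : ℂ := cexp ((j * π / 2 : ℝ) * I) * ch (ix j) x

/-- lifted angle on the sheet `j` -/
def ang (j : ℤ) (x : E3) : ℝ := j * π / 2 + (ch (ix j) x).arg

theorem Ph_pol (j : ℤ) (x : E3) : Pol (Ph j x) (ang j x) := (Pol.arg _).mul_exp _

theorem ang_range {j : ℤ} {x : E3} (h : 0 < x (ix j + 1)) :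
    j * π / 2 < ang j x ∧ ang j x < j * π / 2 + π := by
  have := arg_im_pos (z := ch (ix j) x) h
  unfold ang; constructor <;> linarith

theorem Ph_dist (j : ℤ) (x y : E3) : ‖Ph j x - Ph j y‖ = dist (ch (ix j) x) (ch (ix j) y) := by
  rw [Ph, Ph, ← mul_sub, norm_mul, norm_exp_ofReal_mul_I, one_mul, dist_eq_norm]

theorem Ph_norm (j : ℤ) (x : E3) : ‖Ph j x‖ = ‖ch (ix j) x‖ := by
  rw [Ph, norm_mul, norm_exp_ofReal_mul_I, one_mul]

theorem Ph_far (j : ℤ) (x : E3) : x (ix j + 1) ≤ ‖Ph j x‖ := by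
  rw [Ph_norm]; exact im_le_norm (ch (ix j) x)

theorem exp_succ (j : ℤ) :
    cexp ((((j + 1 : ℤ) : ℝ) * π / 2 : ℝ) * I) = cexp ((j * π / 2 : ℝ) * I) * I := by
  conv_rhs => rw [← exp_pi_div_two_mul_I]
  rw [exp_pi_div_two_mul_I]
  nth_rewrite 3 [← exp_pi_div_two_mul_I]
  rw [← Complex.exp_add]; congr 1; push_cast; ring

theorem Ph_succ {j : ℤ} {x : E3} (h : x (ix j) = 0) : Ph (j + 1) x = Ph j x := by
  rw [Ph, Ph, exp_succ, ix_succ, mul_assoc]; congr 1
  apply Complex.ext <;> simp [ch, f3a, f3b, h]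

theorem compat1 {j : ℤ} {x : E3} (h : Cone x) (h1 : 0 < x (ix j + 1))
    (h2 : 0 < x (ix (j + 1) + 1)) : Ph (j + 1) x = Ph j x ∧ ang (j + 1) x = ang j x := by
  have a := ang_range h1
  have b := ang_range h2
  rw [ix_succ, f3a] at h2
  have e := Ph_succ ((h.dom h1).resolve_right h2.ne')
  refine ⟨e, Pol.uniq (z := Ph j x) ?_ (e ▸ Ph_pol _ _) (Ph_pol _ _) ?_⟩
  · exact norm_pos_iff.1 (h1.trans_le (Ph_far j x))
  · push_cast at b; rw [abs_lt]; constructor <;> linarith [pi_pos]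

theorem compat {j j' : ℤ} {x : E3} (h : Cone x) (h1 : 0 < x (ix j + 1))
    (h2 : 0 < x (ix j' + 1)) (hj : |j' - j| ≤ 1) : Ph j' x = Ph j x ∧ ang j' x = ang j x := by
  rw [abs_le] at hj
  obtain rfl | rfl | rfl : j' = j ∨ j' = j + 1 ∨ j = j' + 1 := by omega
  · exact ⟨rfl, rfl⟩
  · exact compat1 h h1 h2
  · exact ⟨(compat1 h h2 h1).1.symm, (compat1 h h2 h1).2.symm⟩

theorem exists_chart {x : E3} (h : Cone x) (hx : 3 ≤ ‖x‖) (j : ℤ) :
    ∃ j', |j' - j| ≤ 1 ∧ 2 ≤ x (ix j' + 1) := by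
  obtain ⟨i, hi⟩ : ∃ i, 2 ≤ x i := by
    by_contra hc
    push Not at hc
    obtain ⟨i, hi⟩ := h.2
    have e := EuclideanSpace.real_norm_sq_eq x
    rw [sum3 i, hi] at e
    nlinarith [h.1 (i + 1), h.1 (i + 2), hc (i + 1), hc (i + 2)]
  rcases fin3 (ix j) i with rfl | rfl | rfl
  · refine ⟨j - 1, by simp, ?_⟩
    rwa [← ix_succ, sub_add_cancel]
  · exact ⟨j, by simp, hi⟩
  · exact ⟨j + 1, by simp, by rwa [ix_succ, f3a]⟩

theorem Ph_shift (j m : ℤ) (x : E3) :
    Ph (j + 3 * m) x = cexp ((3 * π / 2 * m : ℝ) * I) * Ph j x := by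
  rw [Ph, Ph, ix_three, ← mul_assoc, ← Complex.exp_add]; congr 2; push_cast; ring

theorem ang_shift (j m : ℤ) (x : E3) : ang (j + 3 * m) x = 3 * π / 2 * m + ang j x := by
  rw [ang, ang, ix_three]; push_cast; ring

theorem common1 {j j' : ℤ} {x x' : E3} (h' : Cone x') (h1 : 2 ≤ x (ix j + 1))
    (h2 : 2 ≤ x' (ix j' + 1)) (hd : ‖Ph j x - Ph j' x'‖ ≤ 2 / 5)
    (ha : |ang j x - ang j' x'| < π / 2) (hj : j ≤ j') :
    ∃ c, 1 ≤ x (c + 1) ∧ 1 ≤ x' (c + 1) ∧ dist (ch c x) (ch c x') ≤ 2 / 5 := by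
  have a := ang_range (j := j) (x := x) (by linarith)
  have b := ang_range (j := j') (x := x') (by linarith)
  have c : (j' : ℝ) < j + 3 := by
    rw [abs_lt] at ha
    by_contra hc
    push Not at hc
    nlinarith [pi_pos]
  have c' : j' < j + 3 := by exact_mod_cast c
  obtain rfl | rfl | rfl : j' = j ∨ j' = j + 1 ∨ j' = j + 1 + 1 := by omega
  · exact ⟨ix j', by linarith, by linarith, by rwa [← Ph_dist]⟩
  · have e := hd
    rw [Ph, Ph, exp_succ, mul_assoc, ← mul_sub, norm_mul, norm_exp_ofReal_mul_I, one_mul,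
      ix_succ] at e
    have e2 := (le_abs_self _).trans ((abs_im_le_norm _).trans e)
    simp only [ch, sub_im, mul_im, I_re, I_im, zero_mul, one_mul, zero_add, f3b] at e2
    have e3 : 1 ≤ x' (ix j + 1) := by linarith [h'.1 (ix j)]
    rw [(compat1 h' (by linarith) (by linarith)).1, Ph_dist] at hd
    exact ⟨ix j, by linarith, e3, hd⟩
  · have e := hd
    rw [Ph, Ph, exp_succ, exp_succ, mul_assoc, mul_assoc, ← mul_sub, norm_mul,
      norm_exp_ofReal_mul_I, one_mul, ← mul_assoc, I_mul_I] at e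
    have e2 := (le_abs_self _).trans ((abs_im_le_norm _).trans e)
    simp only [ch, sub_im, neg_mul, one_mul, neg_im] at e2
    linarith

theorem common {j j' : ℤ} {x x' : E3} (h : Cone x) (h' : Cone x') (h1 : 2 ≤ x (ix j + 1))
    (h2 : 2 ≤ x' (ix j' + 1)) (hd : ‖Ph j x - Ph j' x'‖ ≤ 2 / 5)
    (ha : |ang j x - ang j' x'| < π / 2) :
    ∃ c, 1 ≤ x (c + 1) ∧ 1 ≤ x' (c + 1) ∧ dist (ch c x) (ch c x') ≤ 2 / 5 := by
  rcases le_total j j' with c | c
  · exact common1 h' h1 h2 hd ha c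
  · obtain ⟨c, a1, a2, a3⟩ := common1 h h2 h1 (by rwa [norm_sub_rev]) (by rwa [abs_sub_comm]) c
    exact ⟨c, a2, a1, by rwa [dist_comm]⟩

theorem mem_U {a b : ℕ} {r : ℂ} (h0 : 0 ≤ r.re) (h1 : r.re ≤ 1) (h2 : (a : ℝ) ≤ r.im)
    (h3 : r.im < b) : r ∈ U (Finset.Ico a b) := by
  have h4 : 0 ≤ r.im := (Nat.cast_nonneg a).trans h2
  exact mem_biUnion (Finset.mem_coe.2 (Finset.mem_Ico.2 ⟨Nat.le_floor h2, (Nat.floor_lt h4).2 h3⟩))
    ⟨⟨h0, h1⟩, Nat.floor_le h4, (Nat.lt_floor_add_one _).le⟩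

theorem Dk_sub {a b : ℕ} {p : ℂ} (h0 : 3 / 8 ≤ p.re) (h1 : p.re ≤ 5 / 8) (h2 : a + 3 / 8 ≤ p.im)
    (h3 : p.im + 3 / 8 < b) : Dk p ⊆ U (Finset.Ico a b) := fun r hr => by
  have e1 := abs_le.1 ((abs_re_le_norm (r - p)).trans (mem_closedBall_iff_norm.1 hr))
  have e2 := abs_le.1 ((abs_im_le_norm (r - p)).trans (mem_closedBall_iff_norm.1 hr))
  simp only [sub_re, sub_im] at e1 e2
  exact mem_U (by linarith) (by linarith) (by linarith) (by linarith)

/-- the left rail of the ladder -/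
def PA (m k : ℕ) : ℂ := ⟨3 / 8, m + 1 + k / 4⟩
/-- the right rail of the ladder -/
def PB (m k : ℕ) : ℂ := ⟨5 / 8, m + 1 + k / 4⟩

theorem dist_PA (m k l : ℕ) : dist (PA m k) (PA m l) = |(k : ℝ) - l| / 4 := by
  rw [Complex.dist_of_re_eq (z := PA m k) (w := PA m l) rfl, Real.dist_eq]
  simp only [PA]
  rw [show (m : ℝ) + 1 + k / 4 - (m + 1 + l / 4) = (k - l) / 4 by ring, abs_div]; norm_num

theorem bar {g : ℂ → E3} (hg : NE g) {w : ℕ → ℝ} (hA : Acc g w) {m k : ℕ} {j : ℤ}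
    (hc : ∀ r, dist r (PA m k) ≤ 1 → Cone (g r)) (hm : 2 ≤ g (PA m k) (ix j + 1)) {p q : ℂ}
    (p1 : 3 / 8 ≤ p.re) (p2 : p.re ≤ 5 / 8) (p3 : (PA m k).im ≤ p.im)
    (p4 : p.im ≤ (PA m k).im + 1 / 2) (q1 : 3 / 8 ≤ q.re) (q2 : q.re ≤ 5 / 8)
    (q3 : (PA m k).im ≤ q.im) (q4 : q.im ≤ (PA m k).im + 1 / 2) :
    ‖Ph j (g p) - Ph j (g q)‖ ^ 2 ≤ (p.re - q.re) ^ 2 + (p.im - q.im) ^ 2 ∧
      (p.re - q.re) ^ 2 + (p.im - q.im) ^ 2 - 3 * ∑ i ∈ Finset.range 3, w (m + k / 4 + i) ≤
        ‖Ph j (g p) - Ph j (g q)‖ ^ 2 := by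
  have hb : ∀ r ∈ closedBall (PA m k) 1, Cone (g r) ∧ 0 < g r (ix j + 1) := fun r hr => by
    refine ⟨hc r hr, ?_⟩
    have := abs_le.1 ((coord_le _ _ (ix j + 1)).trans ((hg r (PA m k)).trans hr))
    linarith
  have hr : (PA m k).re = 3 / 8 := rfl
  have hs : ∀ p q : ℂ, |p.re - q.re| ≤ 1 / 4 → |p.im - q.im| ≤ 1 / 2 → dist p q ≤ 3 / 5 :=
    fun p q a b => (abs_le_of_sq_le_sq' (by
      rw [dsq2]; nlinarith [sq_abs (p.re - q.re), sq_abs (p.im - q.im),
        abs_nonneg (p.re - q.re), abs_nonneg (p.im - q.im)]) (by norm_num)).2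
  have dp : dist p (PA m k) ≤ 3 / 5 := hs _ _ (by rw [abs_le]; constructor <;> linarith)
    (by rw [abs_le]; constructor <;> linarith)
  have dq : dist q (PA m k) ≤ 3 / 5 := hs _ _ (by rw [abs_le]; constructor <;> linarith)
    (by rw [abs_le]; constructor <;> linarith)
  have dpq : dist p q ≤ 3 / 5 := hs _ _ (by rw [abs_le]; constructor <;> linarith)
    (by rw [abs_le]; constructor <;> linarith)
  have k1 : ((k / 4 : ℕ) : ℝ) ≤ k / 4 := Nat.cast_div_le
  have k2 : (k : ℝ) ≤ 4 * (k / 4 : ℕ) + 3 := by exact_mod_cast (by omega : k ≤ 4 * (k / 4) + 3)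
  have hi : (PA m k).im = m + 1 + k / 4 := rfl
  have h1 := chart_lip hg (convex_closedBall (PA m k) 1) hb (p := p) (q := q)
    (dp.trans (by norm_num)) (dq.trans (by norm_num))
  have h2 := pair hg hA (M := Finset.Ico (m + k / 4) (m + k / 4 + 3)) (p := p) (q := q)
    (c := ix j) (union_subset (Dk_sub p1 p2 (by push_cast; linarith) (by push_cast; linarith))
      (Dk_sub q1 q2 (by push_cast; linarith) (by push_cast; linarith)))
    (by
      rintro r (hr | hr)
      · exact hb r ((dist_triangle r p _).trans (by linarith [mem_closedBall.1 hr]))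
      · exact hb r ((dist_triangle r q _).trans (by linarith [mem_closedBall.1 hr]))) le_rfl dpq
  rw [Finset.sum_Ico_eq_sum_range, Nat.add_sub_cancel_left] at h2
  have h0 : 0 ≤ ∑ i ∈ Finset.range 3, w (m + k / 4 + i) := Finset.sum_nonneg fun i _ => hA.1 _
  rw [Ph_dist, ← dsq2]
  generalize ∑ i ∈ Finset.range 3, w (m + k / 4 + i) = S at *
  have d0 := dist_nonneg (x := ch (ix j) (g p)) (y := ch (ix j) (g q))
  generalize dist (ch (ix j) (g p)) (ch (ix j) (g q)) = d at *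
  generalize dist p q = t at *
  constructor <;> nlinarith

theorem sum_div4 (f : ℕ → ℝ) (n : ℕ) :
    ∑ k ∈ Finset.range (4 * n), f (k / 4) = 4 * ∑ q ∈ Finset.range n, f q := by
  induction n with
  | zero => simp
  | succ n ih =>
    rw [mul_add, mul_one, Finset.sum_range_add, ih, Finset.sum_range_succ f, mul_add]
    congr 1
    rw [Finset.sum_congr rfl (g := fun _ => f n) fun i hi => by
      rw [Finset.mem_range] at hi; congr 1; omega]
    simp

theorem track {g : ℂ → E3} (hg : NE g) {w : ℕ → ℝ} (hA : Acc g w) {m L : ℕ} (hL : 0 < L)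
    (hw : ∑ i ∈ Finset.range (2 * L + 3), w (m + i) ≤ 1 / 360000)
    (hc : ∀ p, dist p (PA m (4 * L)) ≤ L + 1 → Cone (g p))
    (hf : ∀ k ≤ 2 * (4 * L), 3 ≤ ‖g (PA m k)‖) :
    ∃ (j : ℕ → ℤ) (ζ : ℂ), (∀ k ≤ 2 * (4 * L), 2 ≤ g (PA m k) (ix (j k) + 1)) ∧
      Tr (4 * L) (fun k => Ph (j k) (g (PA m k))) (fun k => ang (j k) (g (PA m k))) ζ := by
  have hc' : ∀ k ≤ 2 * (4 * L), ∀ r, dist r (PA m k) ≤ 1 → Cone (g r) := fun k hk r hr => by
    refine hc r ((dist_triangle r (PA m k) _).trans ?_)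
    have : (k : ℝ) ≤ 2 * (4 * L) := by exact_mod_cast hk
    have : |(k : ℝ) - (4 * L : ℕ)| ≤ 4 * L := by
      rw [abs_le]; push_cast; constructor <;> linarith [Nat.cast_nonneg (α := ℝ) k]
    rw [dist_PA]; linarith
  have ex : ∀ k j, ∃ j', k ≤ 2 * (4 * L) → |j' - j| ≤ 1 ∧ 2 ≤ g (PA m k) (ix j' + 1) := by
    intro k j
    by_cases hk : k ≤ 2 * (4 * L)
    · obtain ⟨j', h⟩ := exists_chart (hc' k hk _ (by simp)) (hf k hk) j
      exact ⟨j', fun _ => h⟩
    · exact ⟨0, fun h => absurd h hk⟩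
  choose nx hnx using ex
  set j : ℕ → ℤ := fun k => Nat.rec (nx 0 0) (fun k a => nx (k + 1) a) k with hj
  have mar : ∀ k ≤ 2 * (4 * L), 2 ≤ g (PA m k) (ix (j k) + 1) := fun k hk => by
    cases k with
    | zero => exact (hnx 0 0 hk).2
    | succ k => exact (hnx (k + 1) (j k) hk).2
  have pos : ∀ k ≤ 2 * (4 * L), ∀ r, dist r (PA m k) ≤ 3 / 2 → 0 < g r (ix (j k) + 1) :=
    fun k hk r hr => by
      have := abs_le.1 ((coord_le _ _ (ix (j k) + 1)).trans ((hg r (PA m k)).trans hr))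
      linarith [mar k hk]
  have d1 : ∀ k, dist (PA m (k + 1)) (PA m k) = 1 / 4 := fun k => by rw [dist_PA]; simp
  have cp : ∀ k < 2 * (4 * L), ∀ r, dist r (PA m k) ≤ 1 →
      Ph (j (k + 1)) (g r) = Ph (j k) (g r) ∧ ang (j (k + 1)) (g r) = ang (j k) (g r) :=
    fun k hk r hr => compat (hc' k hk.le r hr) (pos k hk.le r (by linarith))
      (pos (k + 1) hk r (by linarith [dist_triangle_right r (PA m (k + 1)) (PA m k), d1 k]))
      (hnx (k + 1) (j k) hk).1
  have d2 : ∀ k, dist (PB m (k + 1)) (PA m k) ≤ 1 := fun k =>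
    (abs_le_of_sq_le_sq' (by rw [dsq2]; simp only [PA, PB]; push_cast; nlinarith) (by norm_num)).2
  have d3 : ∀ k, dist (PA m (k + 2)) (PA m k) = 1 / 2 := fun k => by
    rw [dist_PA]; simp; norm_num
  obtain ⟨ζ, h1, h2⟩ := chain (a := fun k => Ph (j k) (g (PA m k)))
    (b := fun k => Ph (j k) (g (PB m k))) (N := 2 * (4 * L))
    (α := fun k => 3 * ∑ i ∈ Finset.range 3, w (m + k / 4 + i)) (by omega)
    (fun k => mul_nonneg (by norm_num) (Finset.sum_nonneg fun i _ => hA.1 _))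
    (by
      rw [show 2 * (4 * L) = 4 * (2 * L) by ring,
        sum_div4 (fun q => 3 * ∑ i ∈ Finset.range 3, w (m + q + i)), ← Finset.mul_sum,
        Finset.sum_comm]
      have : ∀ i ∈ Finset.range 3, ∑ q ∈ Finset.range (2 * L), w (m + q + i) ≤ 1 / 360000 := by
        intro i hi
        rw [Finset.mem_range] at hi
        refine le_trans ?_ hw
        rw [show 2 * L + 3 = i + 2 * L + (3 - i) by omega, Finset.sum_range_add,
          Finset.sum_range_add]
        have a := Finset.sum_nonneg (s := Finset.range i) fun x _ => hA.1 (m + x)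
        have b := Finset.sum_nonneg (s := Finset.range (3 - i)) fun x _ =>
          hA.1 (m + (i + 2 * L + x))
        have c : ∑ q ∈ Finset.range (2 * L), w (m + q + i) =
          ∑ q ∈ Finset.range (2 * L), w (m + (i + q)) :=
          Finset.sum_congr rfl fun q _ => by congr 1; ring
        linarith
      have := Finset.sum_le_sum this
      simp only [Finset.sum_const, Finset.card_range, nsmul_eq_mul] at this
      push_cast at this
      linarith)
    (fun k hk => by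
      have B := @bar g hg w hA m k (j k) (hc' k hk.le) (mar k hk.le)
      rw [(cp k hk _ (by rw [d1]; norm_num)).1, (cp k hk _ (d2 k)).1]
      have b1 := @B (PB m k) (PA m k)
      have b2 := @B (PA m (k + 1)) (PA m k)
      have b3 := @B (PB m (k + 1)) (PA m (k + 1))
      have b4 := @B (PB m (k + 1)) (PB m k)
      have b5 := @B (PB m k) (PA m (k + 1))
      have b6 := @B (PB m (k + 1)) (PA m k)
      simp only [show ∀ k, (PA m k).re = 3 / 8 from fun _ => rfl,
        show ∀ k, (PB m k).re = 5 / 8 from fun _ => rfl,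
        show ∀ k : ℕ, (PA m k).im = m + 1 + k / 4 from fun _ => rfl,
        show ∀ k : ℕ, (PB m k).im = m + 1 + k / 4 from fun _ => rfl, Nat.cast_add,
        Nat.cast_one] at b1 b2 b3 b4 b5 b6
      replace b1 := b1 (by norm_num) (by norm_num) (by linarith) (by linarith) (by norm_num)
        (by norm_num) (by linarith) (by linarith)
      replace b2 := b2 (by norm_num) (by norm_num) (by linarith) (by linarith) (by norm_num)
        (by norm_num) (by linarith) (by linarith)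
      replace b3 := b3 (by norm_num) (by norm_num) (by linarith) (by linarith) (by norm_num)
        (by norm_num) (by linarith) (by linarith)
      replace b4 := b4 (by norm_num) (by norm_num) (by linarith) (by linarith) (by norm_num)
        (by norm_num) (by linarith) (by linarith)
      replace b5 := b5 (by norm_num) (by norm_num) (by linarith) (by linarith) (by norm_num)
        (by norm_num) (by linarith) (by linarith)
      replace b6 := b6 (by norm_num) (by norm_num) (by linarith) (by linarith) (by norm_num)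
        (by norm_num) (by linarith) (by linarith)
      constructor <;> linarith [b1.1, b1.2, b2.1, b2.2, b3.1, b3.2, b4.1, b4.2, b5.2, b6.2])
    (fun k hk => by
      have B := @bar g hg w hA m k (j k) (hc' k (by omega)) (mar k (by omega))
        (PA m (k + 2)) (PA m k)
      rw [(cp (k + 1) hk _ (by rw [d1]; norm_num)).1,
        (cp k (by omega) _ (by rw [d3]; norm_num)).1]
      simp only [show ∀ k, (PA m k).re = 3 / 8 from fun _ => rfl,
        show ∀ k : ℕ, (PA m k).im = m + 1 + k / 4 from fun _ => rfl, Nat.cast_add,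
        Nat.cast_ofNat] at B
      linarith [(B (by norm_num) (by norm_num) (by linarith) (by linarith) (by norm_num)
        (by norm_num) (by linarith) (by linarith)).2])
  refine ⟨j, ζ, mar, h1, h2, fun k _ => Ph_pol _ _, fun k hk => (mar k hk).trans (Ph_far _ _),
    fun k hk => ?_⟩
  rw [(cp k hk _ (by rw [d1]; norm_num)).2]
  have a := ang_range (pos k hk.le (PA m k) (by simp; norm_num))
  have b := ang_range (pos k hk.le (PA m (k + 1)) (by rw [d1]; norm_num))
  rw [abs_lt]; constructor <;> linarith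

end

end Pool.Agent.P.MP_dba4bb_co
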