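import Pool.Agent.P.MP_dba4bb_co.F

/-! Two long strips with little waste cannot fill a neighbourhood of a vertex. -/

namespace Pool.Agent.P.MP_dba4bb_co

open Set Metric MeasureTheory Complex Real

noncomputable section

theorem sin_half {b : ℝ} (h1 : π / 4 ≤ b) (h2 : b ≤ 3 * π / 4) : 1 / 2 ≤ Real.sin b := by
  have key : ∀ x, π / 4 ≤ x → x ≤ π / 2 → 1 / 2 ≤ Real.sin x := fun x a b => by
    refine le_trans ?_ (Real.mul_le_sin (by linarith [pi_pos]) b)
    rw [div_mul_eq_mul_div, le_div_iff₀ pi_pos]; linarith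
  rcases le_total b (π / 2) with c | c
  · exact key _ h1 c
  · rw [← Real.sin_pi_sub]; exact key _ (by linarith) (by linarith)

theorem arg_near {v : ℂ} {ρ b : ℝ} (hρ : 0 < ρ) (h1 : π / 4 ≤ b) (h2 : b ≤ 3 * π / 4)
    (hv : ‖v - ρ * cexp (b * I)‖ ≤ ρ / 8) : 3 / 8 * ρ ≤ v.im ∧ |v.arg - b| ≤ π / 8 := by
  have a1 := abs_le.1 ((abs_im_le_norm _).trans hv)
  simp only [sub_im, im_ofReal_mul, exp_ofReal_mul_I_im] at a1
  have a2 : 3 / 8 * ρ ≤ v.im := by nlinarith [sin_half h1 h2]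
  refine ⟨a2, ?_⟩
  have a3 := arg_im_pos (z := v) (by linarith)
  have a4 := (Pol.arg v).mul_exp (-b)
  set u := cexp ((-b : ℝ) * I) * v with hu
  have a5 : ‖u - ρ‖ ≤ ρ / 8 := by
    have e : cexp ((-b : ℝ) * I) * cexp (b * I) = 1 := by
      rw [← Complex.exp_add]; simp
    have : u - ρ = cexp ((-b : ℝ) * I) * (v - ρ * cexp (b * I)) := by
      linear_combination (ρ : ℂ) * e
    rwa [this, norm_mul, norm_exp_ofReal_mul_I, one_mul]
  have a6 := abs_le.1 ((abs_re_le_norm _).trans a5)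
  have a7 := (abs_im_le_norm _).trans a5
  simp only [sub_re, sub_im, ofReal_re, ofReal_im, sub_zero] at a6 a7
  have a8 : 0 < u.re := by linarith
  have a9 := abs_arg_lt_pi_div_two_iff.2 (Or.inl a8)
  have b1 : -b + v.arg = u.arg := by
    refine Pol.uniq (fun e => by rw [e] at a8; simp at a8) a4 (Pol.arg u) ?_
    rw [abs_lt] at a9 ⊢; constructor <;> linarith
  rw [sub_eq_neg_add, b1]
  by_contra hc
  push Not at hc
  have b2 := Real.mul_le_sin (abs_nonneg u.arg) a9.le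
  have b3 : 1 / 4 ≤ 2 / π * |u.arg| := by
    rw [div_mul_eq_mul_div, le_div_iff₀ pi_pos]; linarith
  have b4 : Real.sin |u.arg| ≤ |Real.sin u.arg| := by
    rcases abs_cases u.arg with c | c
    · rw [c.1]; exact le_abs_self _
    · rw [c.1, Real.sin_neg]; exact neg_le_abs _
  rw [(Pol.arg u).im, abs_mul, abs_norm] at a7
  nlinarith [re_le_norm u]

theorem un_zero (c : Fin 3) : un c 0 = 0 := by
  ext i; rcases fin3 c i with rfl | rfl | rfl <;> simp [un0, un1, un2]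

theorem test {s ρ : ℝ} (hρ : 160 ≤ ρ) (hs : 2 * ρ ≤ s) (ψ : ℝ) :
    ∃ (J : ℤ) (T : Set E3), T ⊆ Surf s ∧ ρ ^ 2 / 200 ≤ ar.real T ∧ ∀ y ∈ T, ∀ x, dist x y ≤ 2 →
      2 ≤ x (ix J + 1) ∧ ‖Ph J x‖ ≤ 9 / 8 * ρ ∧ ‖x‖ ≤ 2 * ρ ∧ |ang J x - ψ| ≤ π / 8 := by
  set J := ⌊(ψ - π / 4) / (π / 2)⌋ with hJ
  have j1 : J * (π / 2) ≤ ψ - π / 4 := (le_div_iff₀ (by positivity)).1 (Int.floor_le _)
  have j2 : ψ - π / 4 < (J + 1) * (π / 2) :=
    (div_lt_iff₀ (by positivity)).1 (Int.lt_floor_add_one _)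
  set b := ψ - J * π / 2 with hb
  have b1 : π / 4 ≤ b := by linarith
  have b2 : b ≤ 3 * π / 4 := by linarith
  set o : ℂ := ρ * cexp (b * I) with ho
  have on : ‖o‖ = ρ := by
    rw [ho, norm_mul, norm_exp_ofReal_mul_I, Complex.norm_real, Real.norm_eq_abs, mul_one,
      abs_of_pos (by linarith)]
  have wn : ∀ w ∈ closedBall o (ρ / 10), ‖w‖ ≤ 11 / 10 * ρ := fun w hw => by
    linarith [norm_le_norm_add_norm_sub' w o, mem_closedBall_iff_norm.1 hw]
  refine ⟨J, un (ix J) '' closedBall o (ρ / 10), ?_, ?_, ?_⟩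
  · rintro _ ⟨w, hw, rfl⟩
    have a1 := abs_le.1 ((abs_re_le_norm w).trans (wn w hw))
    have a2 := (im_le_norm w).trans (wn w hw)
    have a3 := (arg_near (by linarith) b1 b2
      ((mem_closedBall_iff_norm.1 hw).trans (by linarith))).1
    refine ⟨fun i => ?_, ?_⟩
    · rcases fin3 (ix J) i with rfl | rfl | rfl
      · rw [un0]; exact ⟨le_max_right _ _, max_le (by linarith) (by linarith)⟩
      · rw [un1]; exact ⟨by linarith, by linarith⟩
      · rw [un2]; exact ⟨le_max_right _ _, max_le (by linarith) (by linarith)⟩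
    · rcases le_total w.re 0 with c | c
      · exact ⟨ix J, Or.inl (by rw [un0, max_eq_right c])⟩
      · exact ⟨ix J + 2, Or.inl (by rw [un2, max_eq_right (by linarith)])⟩
  · have a1 := ar_ch (ix J) (un (ix J) '' closedBall o (ρ / 10))
    rw [image_image, show (fun w => ch (ix J) (un (ix J) w)) = id from funext (ch_un _),
      image_id] at a1
    have a2 := ENNReal.toReal_mono (ENNReal.mul_ne_top (by simp)
      (ar_fin (un_lip _) (isCompact_closedBall _ _))) a1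
    rw [Complex.volume_closedBall, ENNReal.toReal_mul, ENNReal.toReal_mul, ENNReal.toReal_pow,
      ENNReal.toReal_ofReal (by linarith)] at a2
    simp only [ENNReal.coe_toReal, NNReal.coe_real_pi, ENNReal.toReal_ofNat] at a2
    rw [measureReal_def]
    nlinarith [pi_gt_three, sq_nonneg ρ]
  · rintro _ ⟨w, hw, rfl⟩ x hx
    have a1 := ch_lip (ix J) x (un (ix J) w)
    rw [ch_un] at a1
    have a2 : ‖ch (ix J) x - o‖ ≤ ρ / 8 := by
      rw [← dist_eq_norm]
      linarith [dist_triangle (ch (ix J) x) w o, mem_closedBall.1 hw]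
    obtain ⟨a3, a4⟩ := arg_near (by linarith) b1 b2 a2
    refine ⟨le_trans (by linarith) a3, ?_, ?_, ?_⟩
    · rw [Ph_norm]; linarith [norm_le_norm_add_norm_sub' (ch (ix J) x) o]
    · have := un_lip (ix J) w 0
      rw [un_zero, dist_zero_right, dist_zero_right] at this
      rw [dist_eq_norm] at hx
      linarith [norm_le_norm_add_norm_sub' x (un (ix J) w), wn w hw]
    · convert a4 using 2; rw [ang, hb]; ring

theorem near_card {g : ℂ → E3} {w : ℕ → ℝ} {s : ℝ} (hg : NE g) (hA : Acc g w)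
    (hS : ∀ p, g p ∈ Surf s) (hs : 6 ≤ s) {M : Finset ℕ} (hM : ∀ m ∈ M, ∃ p ∈ Cl m, ‖g p‖ < 3) :
    (M.card : ℝ) ≤ 1200 + ∑ m ∈ M, w m := by
  have a1 : g '' U M ⊆ ⋃ c : Fin 3, un c '' closedBall 0 10 := by
    rintro _ ⟨r, hr, rfl⟩
    obtain ⟨m, hm, hr⟩ := mem_iUnion₂.1 hr
    obtain ⟨p, hp, hp'⟩ := hM m hm
    have d : dist r p ≤ 2 := (abs_le_of_sq_le_sq' (by
      rw [dsq2]; nlinarith [hr.1.1, hr.1.2, hr.2.1, hr.2.2, hp.1.1, hp.1.2, hp.2.1, hp.2.2])
      (by norm_num)).2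
    have n : ‖g r‖ ≤ 5 := by
      have := (hg r p).trans d
      rw [dist_eq_norm] at this
      linarith [norm_le_norm_add_norm_sub' (g r) (g p)]
    have hc := cone_of_surf (hS r) (by linarith)
    obtain ⟨c, e⟩ := hc.2
    refine mem_iUnion.2 ⟨c, ch c (g r), ?_, un_ch hc.1 (Or.inl e)⟩
    have := ch_lip c (g r) 0
    rw [show ch c 0 = 0 by apply Complex.ext <;> simp [ch], dist_zero_right (g r)] at this
    exact this.trans (by linarith)
  have a2 : ∀ c : Fin 3, ar.real (un c '' closedBall 0 10) ≤ 400 := fun c => by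
    refine (ar_real (un_lip c) measure_closedBall_lt_top.ne).trans ?_
    rw [measureReal_def, Complex.volume_closedBall, ENNReal.toReal_mul, ENNReal.toReal_pow,
      ENNReal.toReal_ofReal (by norm_num)]
    simp only [ENNReal.coe_toReal, NNReal.coe_real_pi]
    linarith [pi_le_four]
  have a3 := (measureReal_mono a1 (ne_top_of_le_ne_top (ENNReal.sum_ne_top.2 fun c _ =>
    ar_fin (un_lip c) (isCompact_closedBall _ _)) (measure_iUnion_fintype_le ar _))).trans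
    (measureReal_iUnion_fintype_le _)
  rw [Fin.sum_univ_three] at a3
  linarith [a2 0, a2 1, a2 2, hA.2 M]

theorem markov {w : ℕ → ℝ} (h0 : ∀ m, 0 ≤ w m) (N K : ℕ) {S : Finset ℕ} {η : ℝ}
    (hS : ∀ m ∈ S, m + K ≤ N ∧ η ≤ ∑ i ∈ Finset.range K, w (m + i)) :
    S.card * η ≤ K * ∑ m ∈ Finset.range N, w m := by
  have a1 := Finset.card_nsmul_le_sum S _ η fun m hm => (hS m hm).2
  rw [nsmul_eq_mul, Finset.sum_comm] at a1
  refine a1.trans ?_
  have := Finset.sum_le_card_nsmul (Finset.range K) (fun i => ∑ m ∈ S, w (m + i))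
    (∑ m ∈ Finset.range N, w m) fun i hi => by
      rw [← Finset.sum_image (s := S) (g := fun m => m + i) (f := w)
        fun a _ b _ h => Nat.add_right_cancel h]
      refine Finset.sum_le_sum_of_subset_of_nonneg (fun x hx => ?_) fun x _ _ => h0 x
      obtain ⟨m, hm, rfl⟩ := Finset.mem_image.1 hx
      have := (hS m hm).1
      rw [Finset.mem_range] at hi ⊢; omega
  simpa using this

/-- a long window with little waste, developed near the vertex -/
structure Win (g : ℂ → E3) (w : ℕ → ℝ) (L m : ℕ) (j : ℕ → ℤ) (ζ : ℂ) : Prop where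
  sum : ∑ i ∈ Finset.range (2 * L + 3), w (m + i) ≤ 1 / 360000
  cone : ∀ p, dist p (PA m (4 * L)) ≤ L + 1 → Cone (g p)
  mar : ∀ k ≤ 2 * (4 * L), 2 ≤ g (PA m k) (ix (j k) + 1)
  tr : Tr (4 * L) (fun k => Ph (j k) (g (PA m k))) (fun k => ang (j k) (g (PA m k))) ζ
  cen : ‖Ph (j (4 * L)) (g (PA m (4 * L)))‖ ≤ L / 80

theorem Win.shift {g : ℂ → E3} {w : ℕ → ℝ} {L m : ℕ} {j : ℕ → ℤ} {ζ : ℂ} (h : Win g w L m j ζ)
    (n : ℤ) : Win g w L m (fun k => j k + 3 * n) (cexp ((3 * π / 2 * n : ℝ) * I) * ζ) where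
  sum := h.sum
  cone := h.cone
  mar k hk := by rw [ix_three]; exact h.mar k hk
  tr := by simpa only [Ph_shift, ang_shift] using h.tr.rot (3 * π / 2 * n)
  cen := by rw [Ph_shift, norm_mul, norm_exp_ofReal_mul_I, one_mul]; exact h.cen

theorem Win.loc {g : ℂ → E3} {w : ℕ → ℝ} {L m : ℕ} {j : ℕ → ℤ} {ζ : ℂ} (h : Win g w L m j ζ)
    (hg : NE g) {k : ℕ} (hk : k ≤ 2 * (4 * L)) {c : Fin 3} (hc : 1 ≤ g (PA m k) (c + 1)) :
    Dk (PA m k) ⊆ U (Finset.Ico m (m + (2 * L + 3))) ∧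
      ∀ r ∈ Dk (PA m k), Cone (g r) ∧ 0 < g r (c + 1) := by
  have hk' : (k : ℝ) ≤ 2 * (4 * L) := by exact_mod_cast hk
  have k0 := Nat.cast_nonneg (α := ℝ) k
  refine ⟨Dk_sub le_rfl (by simp only [PA]; norm_num) (by simp only [PA]; linarith)
    (by simp only [PA]; push_cast; linarith), fun r hr => ⟨h.cone r ?_, ?_⟩⟩
  · have : |(k : ℝ) - (4 * L : ℕ)| ≤ 4 * L := by
      rw [abs_le]; push_cast; constructor <;> linarith
    have e := dist_triangle r (PA m k) (PA m (4 * L))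
    rw [dist_PA] at e
    linarith [mem_closedBall.1 hr]
  · have := abs_le.1 ((coord_le _ _ (c + 1)).trans ((hg r (PA m k)).trans hr))
    linarith

theorem final {g : ℂ → E3} {w : ℕ → ℝ} (hg : NE g) (hA : Acc g w) {L m m' : ℕ} {j j' : ℕ → ℤ}
    {ζ ζ' : ℂ} (h : Win g w L m j ζ) (h' : Win g w L m' j' ζ') (hL : 0 < L)
    (hm : m + (2 * L + 3) ≤ m' ∨ m' + (2 * L + 3) ≤ m) {φ φ' : ℝ}
    (e : ζ = cexp (φ * I) ∨ ζ = -cexp (φ * I)) (e' : ζ' = cexp (φ' * I) ∨ ζ' = -cexp (φ' * I))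
    (r : ∀ k ≤ 2 * (4 * L), φ - π / 32 ≤ ang (j k) (g (PA m k)) ∧
      ang (j k) (g (PA m k)) ≤ φ + π + π / 32)
    (r' : ∀ k ≤ 2 * (4 * L), φ' - π / 32 ≤ ang (j' k) (g (PA m' k)) ∧
      ang (j' k) (g (PA m' k)) ≤ φ' + π + π / 32)
    (h1 : 3 * π / 32 ≤ |φ - φ'|) (h2 : |φ - φ'| ≤ 3 * π / 4) : False := by
  obtain ⟨k, hk, l, hl, a1, a2⟩ := meet h.tr h'.tr (by omega)
    ((norm_sub_le _ _).trans (by
      push_cast; linarith [h.cen, h'.cen, Nat.cast_nonneg (α := ℝ) L])) e e' r r' h1 h2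
  have z : ∀ {m k}, PA m k ∈ Dk (PA m k) := mem_closedBall_self (by norm_num)
  obtain ⟨c, b1, b2, b3⟩ := common ((h.loc hg hk (by linarith [h.mar k hk])).2 _ z).1
    ((h'.loc hg hl (by linarith [h'.mar l hl])).2 _ z).1 (h.mar k hk) (h'.mar l hl) a1 a2
  obtain ⟨c1, c2⟩ := h.loc hg hk b1
  obtain ⟨c3, c4⟩ := h'.loc hg hl b2
  have d := pair hg hA (M := Finset.Ico m (m + (2 * L + 3)) ∪ Finset.Ico m' (m' + (2 * L + 3)))
    (p := PA m k) (q := PA m' l) (c := c)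
    (by rw [U, Finset.set_biUnion_union]; exact union_subset_union c1 c3)
    (fun r hr => hr.elim (c2 r) (c4 r)) (t := 3 / 5) (by
      refine le_trans ?_ (dist_eq_norm (PA m k) _ ▸ abs_im_le_norm _)
      have hk' : (k : ℝ) ≤ 2 * (4 * L) := by exact_mod_cast hk
      have hl' : (l : ℝ) ≤ 2 * (4 * L) := by exact_mod_cast hl
      have k0 := Nat.cast_nonneg (α := ℝ) k
      have l0 := Nat.cast_nonneg (α := ℝ) l
      simp only [PA, sub_im]
      rcases hm with a | a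
      · have : (m : ℝ) + (2 * L + 3) ≤ m' := by exact_mod_cast a
        exact le_abs.2 (Or.inr (by linarith))
      · have : (m' : ℝ) + (2 * L + 3) ≤ m := by exact_mod_cast a
        exact le_abs.2 (Or.inl (by linarith))) le_rfl
  have f := Finset.sum_union_inter (s₁ := Finset.Ico m (m + (2 * L + 3)))
    (s₂ := Finset.Ico m' (m' + (2 * L + 3))) (f := w)
  have f0 := Finset.sum_nonneg (s := Finset.Ico m (m + (2 * L + 3)) ∩
    Finset.Ico m' (m' + (2 * L + 3))) fun x _ => hA.1 x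
  rw [Finset.sum_Ico_eq_sum_range, Finset.sum_Ico_eq_sum_range, Nat.add_sub_cancel_left,
    Nat.add_sub_cancel_left] at f
  linarith [h.sum, h'.sum]

end

end Pool.Agent.P.MP_dba4bb_co
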