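import Pool.Agent.P.MP_dba4bb_co.G

/-! The wasted area is at least a constant times the side of the cube. -/

namespace Pool.Agent.P.MP_dba4bb_co

open Set Metric MeasureTheory Complex Real

noncomputable section

theorem exists_win {g : ℂ → E3} {w : ℕ → ℝ} {s : ℝ} {N L : ℕ} (hg : NE g) (hA : Acc g w)
    (hS : ∀ p, g p ∈ Surf s) (hN : Surf s ⊆ g '' U (Finset.range N)) (hL : 10 ^ 16 ≤ L)
    (hs : 3 * (L : ℝ) ≤ s) (hW : ∑ m ∈ Finset.range N, w m ≤ L / 10 ^ 14) (ψ : ℝ) (X : Finset ℕ)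
    (hX : X.card ≤ 4 * L + 7) : ∃ m j ζ, Win g w L m j ζ ∧ m + (L + 1) ∉ X ∧
      |ang (j (4 * L)) (g (PA m (4 * L))) - ψ| ≤ π / 8 := by
  classical
  have hL' : (10 : ℝ) ^ 16 ≤ L := by exact_mod_cast hL
  set w' : ℕ → ℝ := fun m => w m + if ∃ p ∈ Cl m, ‖g p‖ < 3 then 1 else 0 with hw'
  have w0 : ∀ m, w m ≤ w' m := fun m => by simp only [hw']; split_ifs <;> simp
  have w1 : ∀ m, 0 ≤ w' m := fun m => (hA.1 m).trans (w0 m)
  have w2 : ∑ m ∈ Finset.range N, w' m ≤ 1200 + 2 * (L / 10 ^ 14) := by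
    have a := near_card hg hA hS (by linarith)
      (M := (Finset.range N).filter fun m => ∃ p ∈ Cl m, ‖g p‖ < 3)
      fun m hm => (Finset.mem_filter.1 hm).2
    have b := Finset.sum_le_sum_of_subset_of_nonneg (f := w) (Finset.filter_subset
      (fun m => ∃ p ∈ Cl m, ‖g p‖ < 3) (Finset.range N)) fun x _ _ => hA.1 x
    rw [Finset.sum_add_distrib, Finset.sum_boole]
    linarith
  set S := (Finset.range N).filter fun m => m + (2 * L + 3) ≤ N ∧
    1 / 360000 ≤ ∑ i ∈ Finset.range (2 * L + 3), w' (m + i) with hSd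
  have s1 := markov w1 N (2 * L + 3) (S := S) fun m hm => (Finset.mem_filter.1 hm).2
  set Bad := Finset.range (L + 1) ∪ Finset.Ico (N - (L + 1)) N ∪ S.image (· + (L + 1)) ∪ X
    with hBad
  have s2 : Bad.card ≤ (L + 1) + (L + 1) + S.card + (4 * L + 7) := by
    refine (Finset.card_union_le _ _).trans (add_le_add ((Finset.card_union_le _ _).trans
      (add_le_add ((Finset.card_union_le _ _).trans ?_) Finset.card_image_le)) hX)
    rw [Finset.card_range, Nat.card_Ico]; omega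
  have s3 : (Bad.card : ℝ) < (L / 100) ^ 2 / 200 := by
    have a : (Bad.card : ℝ) ≤ (L + 1) + (L + 1) + S.card + (4 * L + 7) := by exact_mod_cast s2
    have b : ((2 * L + 3 : ℕ) : ℝ) * ∑ m ∈ Finset.range N, w' m ≤
        3 * L * (1200 + 2 * (L / 10 ^ 14)) :=
      mul_le_mul (by push_cast; linarith) w2 (Finset.sum_nonneg fun m _ => w1 m) (by positivity)
    have c : 10 ^ 16 * (L : ℝ) ≤ L * L := by gcongr
    nlinarith
  obtain ⟨J, T, t1, t2, t3⟩ := test (s := s) (ρ := L / 100) (by linarith) (by linarith) ψ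
  obtain ⟨y, hy, hy'⟩ : ∃ y ∈ T, y ∉ g '' U Bad := by
    by_contra hc
    push Not at hc
    have a := measureReal_mono (μ := ar) hc (ar_fin hg (U_compact Bad))
    linarith [ar_real hg (U_compact Bad).measure_lt_top.ne, vol_U Bad]
  obtain ⟨p, hp, rfl⟩ := hN (t1 hy)
  obtain ⟨m0, hm0, hp⟩ := mem_iUnion₂.1 hp
  have nb : m0 ∉ Bad := fun h => hy' ⟨p, mem_iUnion₂.2 ⟨m0, h, hp⟩, rfl⟩
  simp only [hBad, Finset.mem_union, not_or, Finset.mem_range, Finset.mem_Ico, Finset.mem_image,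
    not_exists, not_and] at nb hm0
  obtain ⟨⟨⟨n1, n2⟩, n3⟩, n4⟩ := nb
  obtain ⟨m, rfl⟩ : ∃ m, m0 = m + (L + 1) := ⟨m0 - (L + 1), by omega⟩
  have n5 : ∑ i ∈ Finset.range (2 * L + 3), w' (m + i) < 1 / 360000 := by
    by_contra hc
    exact n3 m (Finset.mem_filter.2 ⟨Finset.mem_range.2 (by omega), by omega, not_lt.1 hc⟩) rfl
  have d : dist (PA m (4 * L)) p ≤ 2 := (abs_le_of_sq_le_sq' (by
    obtain ⟨⟨a1, a2⟩, a3, a4⟩ := hp
    rw [dsq2]; simp only [PA]; push_cast at *; nlinarith) (by norm_num)).2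
  obtain ⟨u1, u2, u3, u4⟩ := t3 _ hy _ ((hg _ _).trans d)
  have hc : ∀ q, dist q (PA m (4 * L)) ≤ L + 1 → Cone (g q) := fun q hq => by
    refine cone_of_surf (hS q) ?_
    have := (hg _ _).trans hq
    rw [dist_eq_norm] at this
    linarith [norm_le_norm_add_norm_sub' (g q) (g (PA m (4 * L)))]
  have hw : ∑ i ∈ Finset.range (2 * L + 3), w (m + i) ≤ 1 / 360000 :=
    (Finset.sum_le_sum fun i _ => w0 _).trans n5.le
  obtain ⟨j, ζ, mar, tr⟩ := track hg hA (by omega) hw hc fun k hk => by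
    by_contra hn
    have a := Finset.single_le_sum (f := fun i => w' (m + i)) (fun i _ => w1 _)
      (Finset.mem_range.2 (show 1 + k / 4 < 2 * L + 3 by omega))
    have k1 : ((k / 4 : ℕ) : ℝ) ≤ k / 4 := Nat.cast_div_le
    have k2 : (k : ℝ) ≤ 4 * (k / 4 : ℕ) + 3 := by exact_mod_cast (by omega : k ≤ 4 * (k / 4) + 3)
    have b : ∃ p ∈ Cl (m + (1 + k / 4)), ‖g p‖ < 3 := ⟨PA m k, by
      refine ⟨⟨?_, ?_⟩, ?_, ?_⟩ <;> simp only [PA] <;> push_cast <;> linarith, not_le.1 hn⟩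
    simp only [hw', if_pos b] at a n5
    linarith [hA.1 (m + (1 + k / 4))]
  obtain ⟨n, hn⟩ : ∃ n : ℤ, |J - (j (4 * L) + 3 * n)| ≤ 1 :=
    ⟨(J - j (4 * L) + 1) / 3, by rw [abs_le]; omega⟩
  have cp := compat (j := j (4 * L) + 3 * n) (j' := J) (hc (PA m (4 * L)) (by simp; positivity))
    (by rw [ix_three]; linarith [mar (4 * L) (by omega)]) (by linarith) hn
  have W : Win g w L m j ζ := ⟨hw, hc, mar, tr, by
    have := cp.1
    rw [Ph_shift] at this
    rw [this, norm_mul, norm_exp_ofReal_mul_I, one_mul] at u2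
    linarith⟩
  exact ⟨m, _, _, W.shift n, n4, by rw [← cp.2]; exact u4⟩

theorem contra {g : ℂ → E3} {w : ℕ → ℝ} {s : ℝ} {N L : ℕ} (hg : NE g) (hA : Acc g w)
    (hS : ∀ p, g p ∈ Surf s) (hN : Surf s ⊆ g '' U (Finset.range N)) (hL : 10 ^ 16 ≤ L)
    (hs : 3 * (L : ℝ) ≤ s) (hW : ∑ m ∈ Finset.range N, w m ≤ L / 10 ^ 14) : False := by
  obtain ⟨m, j, ζ, W, -, -⟩ := exists_win hg hA hS hN hL hs hW 0 ∅ (by simp)
  have sd : ∀ {m j ζ}, Win g w L m j ζ → _ := fun W =>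
    side W.tr (W.cen.trans (by push_cast; linarith [Nat.cast_nonneg (α := ℝ) L]))
  obtain ⟨φ, e, r⟩ := sd W
  obtain ⟨m', j', ζ', W', a, b⟩ := exists_win hg hA hS hN hL hs hW (φ + 5 * π / 4)
    (Finset.Icc (m + (L + 1) - (2 * L + 3)) (m + (L + 1) + (2 * L + 3)))
    (by rw [Nat.card_Icc]; omega)
  obtain ⟨φ', e', r'⟩ := sd W'
  have hm : m + (2 * L + 3) ≤ m' ∨ m' + (2 * L + 3) ≤ m := by
    rw [Finset.mem_Icc] at a; omega
  have c := r' (4 * L) (by omega)
  rw [abs_le] at b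
  rcases le_total φ' (φ + 3 * π / 4) with d | d
  · refine final hg hA W W' (by omega) hm e e' r r' (le_abs.2 (Or.inr (by linarith))) ?_
    rw [abs_le]; constructor <;> linarith [pi_pos]
  · refine final hg hA W (W'.shift (-1)) (by omega) hm (φ' := 3 * π / 2 * (-1 : ℤ) + φ') e ?_ r
      (fun k hk => ?_) (le_abs.2 (Or.inl (by push_cast; linarith))) ?_
    · rw [ofReal_add, add_mul, Complex.exp_add]
      rcases e' with rfl | rfl
      · exact Or.inl rfl
      · exact Or.inr (mul_neg _ _)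
    · rw [ang_shift]; constructor <;> linarith [r' k hk]
    · rw [abs_le]; push_cast; constructor <;> linarith [pi_pos]

/-- the plane of a face -/
def fc (c : Fin 3) (b : ℝ) (z : ℂ) : E3 :=
  WithLp.toLp 2 fun i => if i = c then b else if i = c + 1 then z.re else z.im

theorem fc0 (c : Fin 3) (b : ℝ) (z : ℂ) : fc c b z c = b := by simp [fc]
theorem fc1 (c : Fin 3) (b : ℝ) (z : ℂ) : fc c b z (c + 1) = z.re := by
  have : c + 1 ≠ c := by revert c; decide
  simp [fc, this]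
theorem fc2 (c : Fin 3) (b : ℝ) (z : ℂ) : fc c b z (c + 2) = z.im := by
  have h1 : c + 2 ≠ c := by revert c; decide
  have h2 : c + 2 ≠ c + 1 := by revert c; decide
  simp only [fc, h1, h2, if_false]

theorem fc_iso (c : Fin 3) (b : ℝ) : Isometry (fc c b) := Isometry.of_dist_eq fun z w => by
  rw [← sq_eq_sq₀ dist_nonneg dist_nonneg, dsq3 c, dsq2, fc0, fc0, fc1, fc1, fc2, fc2]; ring

theorem surf_area {s : ℝ} (hs : 0 < s) (hf : ar (Surf s) ≠ ⊤) : 6 * s ^ 2 ≤ ar.real (Surf s) := by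
  set Q : Set ℂ := {p | p.re ∈ Ioo 0 s ∧ p.im ∈ Ioo 0 s} with hQ
  set F : Fin 3 × Bool → Set E3 := fun a => fc a.1 (if a.2 then s else 0) '' Q with hF
  have hv : ∀ a, ar (F a) = ENNReal.ofReal (s ^ 2) := fun a => by
    rw [hF, ar, (fc_iso _ _).euclideanHausdorffMeasure_image, ← vol_eq, hQ, vol_box, sub_zero,
      ← ENNReal.ofReal_mul hs.le, sq]
  have hm : ∀ a, MeasurableSet (F a) := fun a =>
    (fc_iso _ _).isClosedEmbedding.measurableEmbedding.measurableSet_image.2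
      (isOpen_Ioo.reProdIm isOpen_Ioo).measurableSet
  have h1 : ∀ a, ∀ x ∈ F a, x a.1 = (if a.2 then s else 0) ∧ ∀ i ≠ a.1, x i ∈ Ioo 0 s := by
    rintro a _ ⟨z, hz, rfl⟩
    refine ⟨fc0 _ _ _, fun i hi => ?_⟩
    rcases fin3 a.1 i with rfl | rfl | rfl
    · exact absurd rfl hi
    · rw [fc1]; exact hz.1
    · rw [fc2]; exact hz.2
  have hd : Pairwise (Function.onFun Disjoint F) := by
    rintro ⟨c, b⟩ ⟨c', b'⟩ hne
    refine Set.disjoint_left.2 fun x hx hx' => ?_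
    have a := h1 _ x hx
    have a' := h1 _ x hx'
    by_cases e : c = c'
    · subst e
      have := a.1.symm.trans a'.1
      cases b <;> cases b' <;> simp [hs.ne, hs.ne'] at this hne
    · have := a'.2 c e
      rw [a.1] at this
      cases b <;> simp at this
  have hsub : ⋃ a, F a ⊆ Surf s := iUnion_subset fun a x hx => by
    obtain ⟨e, e'⟩ := h1 a x hx
    refine ⟨fun i => ?_, a.1, ?_⟩
    · by_cases h : i = a.1
      · rw [h, e]; split_ifs <;> simp [hs.le]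
      · exact Ioo_subset_Icc_self (e' i h)
    · rw [e]; split_ifs <;> simp
  have := measureReal_mono hsub hf
  rw [measureReal_iUnion_fintype hd hm fun a => by rw [hv]; simp] at this
  simpa [measureReal_def, hv, ENNReal.toReal_ofReal (sq_nonneg s)] using this

theorem core {g : ℂ → E3} {s : ℝ} {N : ℕ} (hg : NE g) (hs : 0 < s) (hS : ∀ p, g p ∈ Surf s)
    (hN : Surf s ⊆ g '' U (Finset.range N)) : 6 * s ^ 2 + 1 / 10 ^ 15 * s ≤ N + 100 := by
  obtain ⟨w, hA, hw⟩ := exists_acc hg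
  have f := ar_fin hg (U_compact (Finset.range N))
  have a1 := (surf_area hs (measure_ne_top_of_subset hN f)).trans (measureReal_mono hN f)
  have a2 := Finset.sum_nonneg (s := Finset.range N) fun m _ => hA.1 m
  rw [hw] at a2
  by_contra hc
  push Not at hc
  have b1 := Nat.floor_le (show 0 ≤ s / 3 by positivity)
  have b2 := Nat.lt_floor_add_one (s / 3)
  refine contra hg hA hS hN (L := ⌊s / 3⌋₊) (Nat.le_floor (by push_cast; linarith)) (by linarith) ?_
  rw [hw]; linarith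

theorem Wraps.scale {x y s : ℝ} (hx : 0 < x) (hy : 0 ≤ y) (hs : 0 < s) (h : Wraps x y s) :
    6 * s ^ 2 + 1 / 10 ^ 15 * x * s ≤ x * y + 101 * x ^ 2 := by
  obtain ⟨f, 𝓕, fin, hU, hF, hf⟩ := h
  have hK : Convex ℝ (Rect x y) := ((convex_Icc 0 x).linear_preimage reLm).inter
    ((convex_Icc 0 y).linear_preimage imLm)
  have hl : ∀ p ∈ Rect x y, ∀ q ∈ Rect x y, dist (f p) (f q) ≤ dist p q := fun p hp q hq =>
    glue hK fin (fun F h => (hF F h).1) hU.ge (fun F h a ha b hb => (hF F h).2 a ha.1 b hb.1) hp hq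
  set cl : ℂ → ℂ := fun p => ⟨max 0 (min (x * p.re) x), max 0 (min (x * p.im) y)⟩ with hcl
  have c1 : ∀ p, cl p ∈ Rect x y := fun p =>
    ⟨⟨le_max_left _ _, max_le hx.le (min_le_right _ _)⟩, le_max_left _ _,
      max_le hy (min_le_right _ _)⟩
  have c2 : ∀ a b t : ℝ, (max 0 (min a t) - max 0 (min b t)) ^ 2 ≤ (a - b) ^ 2 := fun a b t => by
    rw [sq_le_sq]
    refine le_trans ?_ (abs_min_sub_min_le_max a t b t |>.trans (by simp))
    simpa [max_comm] using abs_max_sub_max_le_abs (min a t) (min b t) 0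
  have c3 : ∀ p q, dist (cl p) (cl q) ≤ x * dist p q := fun p q =>
    (abs_le_of_sq_le_sq' (by
      rw [mul_pow, dsq2, dsq2]
      linarith [c2 (x * p.re) (x * q.re) x, c2 (x * p.im) (x * q.im) y]) (by positivity)).2
  have sc : ∀ {t s : ℝ} {q : E3}, 0 < t → q ∈ Surf s → t • q ∈ Surf (t * s) := by
    rintro t s q ht ⟨h1, i, h2⟩
    refine ⟨fun j => ⟨mul_nonneg ht.le (h1 j).1, mul_le_mul_of_nonneg_left (h1 j).2 ht.le⟩, i, ?_⟩
    rcases h2 with e | e <;> simp [e]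
  have := core (g := fun p => x⁻¹ • f (cl p)) (s := x⁻¹ * s) (N := ⌊y / x⌋₊ + 1)
    (fun p q => by
      rw [dist_smul₀, Real.norm_eq_abs, abs_of_pos (inv_pos.2 hx), inv_mul_le_iff₀ hx]
      exact (hl _ (c1 p) _ (c1 q)).trans (c3 p q)) (by positivity)
    (fun p => sc (inv_pos.2 hx) (hf ▸ mem_image_of_mem f (c1 p))) fun q hq => by
      have := sc hx hq
      rw [mul_inv_cancel_left₀ hx.ne', ← hf] at this
      obtain ⟨p, ⟨⟨p1, p2⟩, p3, p4⟩, e⟩ := this
      refine ⟨⟨p.re / x, p.im / x⟩, ?_, ?_⟩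
      · rw [Finset.range_eq_Ico]
        refine mem_U (by positivity) ((div_le_one hx).2 p2) (by simpa using by positivity) ?_
        push_cast
        exact lt_of_le_of_lt (div_le_div_of_nonneg_right p4 hx.le) (Nat.lt_floor_add_one (y / x))
      · have : cl ⟨p.re / x, p.im / x⟩ = p := by
          apply Complex.ext <;> simp [mul_div_cancel₀ _ hx.ne', *]
        simp only [this, e, inv_smul_smul₀ hx.ne']
  have b := Nat.floor_le (show 0 ≤ y / x by positivity)
  push_cast at this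
  have e : 6 * (x⁻¹ * s) ^ 2 + 1 / 10 ^ 15 * (x⁻¹ * s) ≤ y / x + 101 := by linarith
  have := mul_le_mul_of_nonneg_left e (sq_nonneg x)
  have e1 : x ^ 2 * (6 * (x⁻¹ * s) ^ 2 + 1 / 10 ^ 15 * (x⁻¹ * s)) =
    6 * s ^ 2 + 1 / 10 ^ 15 * x * s := by field_simp
  have e2 : x ^ 2 * (y / x + 101) = x * y + 101 * x ^ 2 := by field_simp
  linarith

end

end Pool.Agent.P.MP_dba4bb_co
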